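import Mathlib

/-!
# Job E7 (LinL): the linear lemma

`W = ker C ⊕ W1`; `C` maps `W1` isomorphically onto `range C`; `dim W / range C = dim ker C`. So there is a linear isomorphism `R : W → W` with `C = R ∘ Pr`, `Pr` the
projection onto `W1` along `ker C` (`R = C` on `W1`, and an isomorphism of `ker C` with a complement of `range C`). Choose `Y ⊆ ker C` and a linear
isomorphism `u : E → Y` (possible as `finrank E ≤ finrank (ker C)`), and `Y'` with `ker C = Y ⊕ Y'`; let `pY`, `pY'`, `Pr` be the projections of `W = Y ⊕ Y' ⊕ W1`.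
`A3 = R ∘ pY'`, `A2 = R ∘ u`, `A1 = u⁻¹ ∘ pY`. If `C w + δ (A2 u0 + A3 w) = 0` then `Pr w + δ (u u0 + pY' w) = 0` so the three components vanish: `Pr w = 0`, `u u0 = 0`,
`pY' w = 0`. Hence `u0 = 0` and `w = pY w`; if `A1 w = 0` then `pY w = 0`, so `w = 0`.
-/

set_option autoImplicit false

namespace Pool.Agent.B9x.E

theorem lin_lemma {E W : Type} [AddCommGroup E] [Module ℂ E] [FiniteDimensional ℂ E]
    [AddCommGroup W] [Module ℂ W] [FiniteDimensional ℂ W] (C : W →ₗ[ℂ] W)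
    (h : Module.finrank ℂ E ≤ Module.finrank ℂ (LinearMap.ker C)) :
    ∃ (A1 : W →ₗ[ℂ] E) (A2 : E →ₗ[ℂ] W) (A3 : W →ₗ[ℂ] W), ∀ δ : ℂ, δ ≠ 0 → ∀ u w,
      C w + δ • (A2 u + A3 w) = 0 → u = 0 ∧ (A1 w = 0 → w = 0) := by
  obtain ⟨f, hf⟩ := finrank_le_iff_exists_linearMap.mp h
  obtain ⟨g, hg⟩ := LinearMap.exists_leftInverse_of_injective f (LinearMap.ker_eq_bot.mpr hf)
  have hgf : ∀ x, g (f x) = x := fun x => LinearMap.congr_fun hg x
  obtain ⟨W1, hW1⟩ := (LinearMap.ker C).exists_isCompl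
  obtain ⟨C1, hC1⟩ := (LinearMap.range C).exists_isCompl
  have hfin : Module.finrank ℂ (LinearMap.ker C) = Module.finrank ℂ C1 := by
    have h1 := Submodule.finrank_add_eq_of_isCompl hC1
    have h2 := LinearMap.finrank_range_add_finrank_ker C
    omega
  let e : LinearMap.ker C ≃ₗ[ℂ] C1 := LinearEquiv.ofFinrankEq _ _ hfin
  let P : W →ₗ[ℂ] LinearMap.ker C := (LinearMap.ker C).projectionOnto W1 hW1
  let e' : LinearMap.ker C →ₗ[ℂ] W := C1.subtype ∘ₗ e.toLinearMap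
  refine ⟨g ∘ₗ P, e' ∘ₗ f, e' ∘ₗ (P - f ∘ₗ g ∘ₗ P), ?_⟩
  intro δ hδ u w hw
  have h3 : δ • ((e' ∘ₗ f) u + (e' ∘ₗ (P - f ∘ₗ g ∘ₗ P)) w)
      = e' (δ • (f u + (P w - f (g (P w))))) := by
    simp only [LinearMap.comp_apply, LinearMap.sub_apply, map_smul, map_add, map_sub]
  rw [h3] at hw
  have h4 : e' (δ • (f u + (P w - f (g (P w))))) ∈ C1 := (e (δ • (f u + (P w - f (g (P w)))))).2
  have h5 : C w ∈ LinearMap.range C := ⟨w, rfl⟩
  have h6 : C w = 0 := by
    have h7 : C w ∈ C1 := by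
      have h8 : C w = - e' (δ • (f u + (P w - f (g (P w))))) := eq_neg_of_add_eq_zero_left hw
      rw [h8]
      exact C1.neg_mem h4
    exact Submodule.disjoint_def.mp hC1.disjoint _ h5 h7
  rw [h6, zero_add] at hw
  have h9 : e (δ • (f u + (P w - f (g (P w))))) = 0 := Subtype.ext hw
  have h10 : δ • (f u + (P w - f (g (P w)))) = 0 := e.map_eq_zero_iff.mp h9
  have h11 : f u + (P w - f (g (P w))) = 0 := (smul_eq_zero.mp h10).resolve_left hδ
  have h12 : u = 0 := by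
    have h13 := congrArg g h11
    rw [map_add, map_sub, hgf, hgf, map_zero, sub_self, add_zero] at h13
    exact h13
  refine ⟨h12, fun h14 => ?_⟩
  have h15 : g (P w) = 0 := h14
  rw [h12, map_zero, zero_add, h15, map_zero, sub_zero] at h11
  have h16 : P (((⟨w, LinearMap.mem_ker.mpr h6⟩ : LinearMap.ker C) : W)) = ⟨w, LinearMap.mem_ker.mpr h6⟩ :=
    Submodule.projectionOnto_apply_left hW1 _
  have h17 : (⟨w, LinearMap.mem_ker.mpr h6⟩ : LinearMap.ker C) = 0 := by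
    rw [← h16]
    exact h11
  exact congrArg Subtype.val h17

end Pool.Agent.B9x.E
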