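import Pool.Agent.Lib.MP_b9c6dd_an.X.E.Defs
import Pool.Agent.Lib.MP_b9c6dd_an.X.E.LinL

/-!
# Job E8 (Chain): invertible perturbations of block diagonal operators

`W = Ev → E`, `C w e = G e (w e)`. Each non invertible `G e` has a nonzero kernel vector (finite dimension), so `finrank (ker C) ≥ #{e | ¬ IsUnit (G e)} ≥ finrank E`.
`lin_lemma` gives `A1 A2 A3`. Define `T ξ` by: slot `inl 0`: `A1 (ξ ∘ inr)`; slot `inl (r+1)`: `ξ (inl r)`; slot `inr e`: `(A2 (ξ (inl N)) + A3 (ξ ∘ inr)) e` (with `Fin (N + 1)`, `N` = `Fin.last N`).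
If `(dg (Sum.elim f G) + δ T) ξ = 0`: the slots `inr e` give `C w + δ (A2 u + A3 w) = 0` with `u = ξ (inl (last N))`, `w = ξ ∘ inr`; so `u = 0`. For `r` from `N` down to `1`: slot
`inl r`: `f r (ξ (inl r)) + δ ξ (inl (r - 1)) = 0` and `ξ (inl r) = 0` give `ξ (inl (r-1)) = 0`. Slot `inl 0`: `f 0 0 + δ A1 w = 0` so `A1 w = 0`, `w = 0`. So the operator is injective, hence a unit
(finite dimension: `LinearMap.injective_iff_surjective`, `ContinuousLinearMap` unit from a linear equivalence).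
-/

set_option autoImplicit false

open scoped InnerProductSpace

namespace Pool.Agent.B9x.E

private theorem chain_isUnit {V : Type} [NormedAddCommGroup V] [NormedSpace ℂ V]
    [FiniteDimensional ℂ V] [CompleteSpace V] (S : V →L[ℂ] V) (h : ∀ x, S x = 0 → x = 0) :
    IsUnit S := by
  rw [ContinuousLinearMap.isUnit_iff_bijective]
  have hinj : Function.Injective (S : V →ₗ[ℂ] V) := by
    rw [injective_iff_map_eq_zero]
    exact h
  exact ⟨hinj, (LinearMap.injective_iff_surjective.1 hinj)⟩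

theorem chain {E Ev : Type} [Fintype Ev] [DecidableEq Ev] [NormedAddCommGroup E]
    [InnerProductSpace ℂ E] [FiniteDimensional ℂ E] [CompleteSpace E] (N : ℕ)
    (G : Ev → (E →L[ℂ] E)) (s : Finset Ev) (hs : ∀ e ∈ s, ¬ IsUnit (G e))
    (h : Module.finrank ℂ E ≤ s.card) :
    ∃ T : PiLp 2 (fun _ : Fin (N + 1) ⊕ Ev => E) →L[ℂ] PiLp 2 (fun _ : Fin (N + 1) ⊕ Ev => E),
      ∀ (f : Fin (N + 1) → (E →L[ℂ] E)) (δ : ℂ), δ ≠ 0 →
        IsUnit (dg (Fin (N + 1) ⊕ Ev) E (Sum.elim f G) + δ • T) := by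
  classical
  -- the block operator on the evaluation slots
  let C : (Ev → E) →ₗ[ℂ] (Ev → E) :=
    LinearMap.pi (fun e => (G e : E →ₗ[ℂ] E) ∘ₗ LinearMap.proj e)
  have hCa : ∀ w e, C w e = G e (w e) := fun w e => rfl
  -- kernel vectors
  have hker : ∀ e ∈ s, ∃ v : E, v ≠ 0 ∧ G e v = 0 := by
    intro e he
    by_contra hcon
    push Not at hcon
    exact hs e he (chain_isUnit (G e) (fun x hx => by
      by_contra hx0
      exact hcon x hx0 hx))
  choose! v hv0 hvG using hker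
  have hrank : Module.finrank ℂ E ≤ Module.finrank ℂ (LinearMap.ker C) := by
    refine h.trans ?_
    let b : s → LinearMap.ker C := fun e => ⟨Pi.single (e : Ev) (v e), by
      rw [LinearMap.mem_ker]
      funext e'
      rw [hCa]
      by_cases hee : e' = (e : Ev)
      · subst hee
        rw [Pi.single_eq_same]
        exact hvG _ e.2
      · rw [Pi.single_eq_of_ne hee, map_zero]
        rfl⟩
    have hb : LinearIndependent ℂ b := by
      rw [Fintype.linearIndependent_iff]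
      intro g hg i
      have h1 : ((∑ j, g j • b j : LinearMap.ker C) : Ev → E) (i : Ev) = 0 := by
        rw [hg]; rfl
      rw [Submodule.coe_sum, Finset.sum_apply, Finset.sum_eq_single i] at h1
      · have h2 : g i • v i = 0 := by
          have h3 : ((g i • b i : LinearMap.ker C) : Ev → E) (i : Ev) = g i • v i := by
            change g i • (Pi.single (i : Ev) (v i) : Ev → E) (i : Ev) = _
            rw [Pi.single_eq_same]
          rw [← h3]; exact h1
        exact (smul_eq_zero.1 h2).resolve_right (hv0 _ i.2)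
      · intro j _ hj
        change g j • (Pi.single (j : Ev) (v j) : Ev → E) (i : Ev) = 0
        rw [Pi.single_eq_of_ne (fun hh => hj (Subtype.ext hh.symm)), smul_zero]
      · intro hi
        exact absurd (Finset.mem_univ i) hi
    have h3 := hb.fintype_card_le_finrank
    rwa [Fintype.card_coe] at h3
  obtain ⟨A1, A2, A3, hA⟩ := lin_lemma (E := E) (W := Ev → E) C hrank
  let rs : ((Fin (N + 1) ⊕ Ev) → E) →ₗ[ℂ] (Ev → E) := LinearMap.funLeft ℂ E Sum.inr
  let F0 : ((Fin (N + 1) ⊕ Ev) → E) →ₗ[ℂ] ((Fin (N + 1) ⊕ Ev) → E) :=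
    LinearMap.pi (fun k => Sum.elim
      (fun r : Fin (N + 1) => Fin.cases (A1 ∘ₗ rs)
        (fun r' : Fin N => LinearMap.proj (Sum.inl r'.castSucc)) r)
      (fun e => LinearMap.proj e ∘ₗ (A2 ∘ₗ LinearMap.proj (Sum.inl (Fin.last N)) + A3 ∘ₗ rs)) k)
  let L := WithLp.linearEquiv 2 ℂ ((Fin (N + 1) ⊕ Ev) → E)
  let T0 : PiLp 2 (fun _ : Fin (N + 1) ⊕ Ev => E) →ₗ[ℂ] PiLp 2 (fun _ : Fin (N + 1) ⊕ Ev => E) :=
    L.symm.toLinearMap ∘ₗ F0 ∘ₗ L.toLinearMap
  let T : PiLp 2 (fun _ : Fin (N + 1) ⊕ Ev => E) →L[ℂ] PiLp 2 (fun _ : Fin (N + 1) ⊕ Ev => E) :=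
    LinearMap.toContinuousLinearMap T0
  have hT0 : ∀ ξ, T ξ (Sum.inl 0) = A1 (fun e => ξ (Sum.inr e)) := fun ξ => rfl
  have hT1 : ∀ ξ (r : Fin N), T ξ (Sum.inl r.succ) = ξ (Sum.inl r.castSucc) := fun ξ r => rfl
  have hT2 : ∀ ξ e, T ξ (Sum.inr e)
      = (A2 (ξ (Sum.inl (Fin.last N))) + A3 (fun e => ξ (Sum.inr e))) e := fun ξ e => rfl
  refine ⟨T, ?_⟩
  intro f δ hδ
  refine chain_isUnit _ ?_
  intro ξ hξ
  have hk : ∀ k, (Sum.elim f G k) (ξ k) + δ • (T ξ k) = 0 := by
    intro k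
    have h1 : ((dg (Fin (N + 1) ⊕ Ev) E (Sum.elim f G) + δ • T) ξ) k = 0 := by
      rw [hξ]; rfl
    rw [ContinuousLinearMap.add_apply, ContinuousLinearMap.smul_apply, PiLp.add_apply,
      PiLp.smul_apply, dg_apply] at h1
    exact h1
  have hw := hA δ hδ (ξ (Sum.inl (Fin.last N))) (fun e => ξ (Sum.inr e)) (by
    funext e
    have h1 := hk (Sum.inr e)
    rw [hT2] at h1
    exact h1)
  have hinl : ∀ r : Fin (N + 1), ξ (Sum.inl r) = 0 := by
    intro r
    induction r using Fin.reverseInduction with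
    | last => exact hw.1
    | cast r ih =>
      have h1 := hk (Sum.inl r.succ)
      rw [hT1, ih, map_zero, zero_add] at h1
      exact (smul_eq_zero.1 h1).resolve_left hδ
  have hA1 : A1 (fun e => ξ (Sum.inr e)) = 0 := by
    have h1 := hk (Sum.inl 0)
    rw [hT0, hinl 0, map_zero, zero_add] at h1
    exact (smul_eq_zero.1 h1).resolve_left hδ
  have hw0 := hw.2 hA1
  ext k
  rcases k with r | e
  · exact hinl r
  · exact congrFun hw0 e

end Pool.Agent.B9x.E
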