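import Pool.Agent.Lib.MP_b9c6dd_an.X.E.RPtop

/-!
# Job E4 (Cj): conjugation by the Clifford unitaries

`cjf_eq`: expand `zz` (`map_sum`, `map_smul` of `amp`; star is conjugate linear, the coefficients are real). `zz_unitary`: `star z * z = 1` from `sd.hγ`; the other one by
`mul_eq_one_comm` for square matrices (then apply `amp`). Every point of `RP a` is `rpmk v hv` (destructure).
`cj_mul` etc. : for `p = rpmk v hv`, `cjf p (S * T) = z S T z* = z S z* z T z* `.
-/

set_option autoImplicit false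

open scoped InnerProductSpace

namespace Pool.Agent.B9x.E

variable {X : Type} {E : Type} [NormedAddCommGroup E]
  [InnerProductSpace ℂ E] [FiniteDimensional ℂ E] [CompleteSpace E] (sd : SD X)

private theorem cj_amp_zz (v : Fin (sd.a + 1) → ℝ) :
    amp sd.K E (zz sd.γ v) = ∑ k, ((v k : ℝ) : ℂ) • amp sd.K E (sd.γ k) := by
  unfold zz
  rw [map_sum]
  refine Finset.sum_congr rfl fun k _ => ?_
  rw [map_smul]

private theorem cj_star (v : Fin (sd.a + 1) → ℝ) :
    star (∑ k, ((v k : ℝ) : ℂ) • amp sd.K E (sd.γ k)) = ∑ k, ((v k : ℝ) : ℂ) • star (amp sd.K E (sd.γ k)) := by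
  have h : ∀ s : Finset (Fin (sd.a + 1)), star (∑ k ∈ s, ((v k : ℝ) : ℂ) • amp sd.K E (sd.γ k)) =
      ∑ k ∈ s, ((v k : ℝ) : ℂ) • star (amp sd.K E (sd.γ k)) := by
    intro s
    induction s using Finset.induction_on with
    | empty =>
      rw [Finset.sum_empty, Finset.sum_empty]
      exact map_zero (ContinuousLinearMap.adjoint (𝕜 := ℂ) (E := sd.E' E) (F := sd.E' E))
    | insert k s hk ih =>
      rw [Finset.sum_insert hk, Finset.sum_insert hk, ← ih]
      have h2 : star (((v k : ℝ) : ℂ)) = ((v k : ℝ) : ℂ) := Complex.conj_ofReal _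
      have h3 : star (((v k : ℝ) : ℂ) • amp sd.K E (sd.γ k)) = ((v k : ℝ) : ℂ) • star (amp sd.K E (sd.γ k)) := by
        rw [star_smul, h2]
      rw [← h3]
      exact star_add (R := sd.E' E →L[ℂ] sd.E' E) _ _
  exact h Finset.univ

theorem cjf_eq (v : Fin (sd.a + 1) → ℝ) (hv : ∑ k, v k ^ 2 = 1) (T : sd.E' E →L[ℂ] sd.E' E) :
    cjf sd E (rpmk v hv) T = amp sd.K E (zz sd.γ v) * T * star (amp sd.K E (zz sd.γ v)) := by
  rw [cj_amp_zz, cj_star, Finset.sum_mul, Finset.sum_mul]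
  unfold cjf
  refine Finset.sum_congr rfl fun k _ => ?_
  rw [Finset.mul_sum]
  refine Finset.sum_congr rfl fun l _ => ?_
  have h1 : (rpmk v hv).1 k l = v k * v l := rfl
  rw [h1, smul_mul_assoc, mul_smul_comm, smul_mul_assoc, smul_smul]
  push_cast
  rw [mul_comm ((v l : ℝ) : ℂ)]

theorem zz_star_mul (v : Fin (sd.a + 1) → ℝ) (hv : ∑ k, v k ^ 2 = 1) :
    star (amp sd.K E (zz sd.γ v)) * amp sd.K E (zz sd.γ v) = 1 := by
  rw [← map_star, ← map_mul, sd.hγ v, hv]
  simp

theorem zz_mul_star (v : Fin (sd.a + 1) → ℝ) (hv : ∑ k, v k ^ 2 = 1) :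
    amp sd.K E (zz sd.γ v) * star (amp sd.K E (zz sd.γ v)) = 1 := by
  have h1 : star (zz sd.γ v) * zz sd.γ v = 1 := by
    rw [sd.hγ v, hv]
    simp
  have h2 : zz sd.γ v * star (zz sd.γ v) = 1 := mul_eq_one_comm.mp h1
  rw [← map_star, ← map_mul, h2, map_one]

private theorem cj_ind {P : RP sd.a → Prop} (h : ∀ v hv, P (rpmk v hv)) (p : RP sd.a) : P p := by
  obtain ⟨p, v, hv, rfl⟩ := p
  exact h v hv

theorem cjf_one (p : RP sd.a) : cjf sd E p 1 = 1 := by
  refine cj_ind sd (P := fun p => cjf sd E p 1 = 1) (fun v hv => ?_) p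
  rw [cjf_eq, mul_one, zz_mul_star sd v hv]

theorem cjf_mul (p : RP sd.a) (S T : sd.E' E →L[ℂ] sd.E' E) :
    cjf sd E p (S * T) = cjf sd E p S * cjf sd E p T := by
  refine cj_ind sd (P := fun p => cjf sd E p (S * T) = cjf sd E p S * cjf sd E p T) (fun v hv => ?_) p
  rw [cjf_eq, cjf_eq, cjf_eq]
  have h := zz_star_mul (E := E) sd v hv
  generalize amp sd.K E (zz sd.γ v) = z at h
  calc z * (S * T) * star z = z * S * 1 * T * star z := by simp only [mul_assoc, one_mul]
    _ = z * S * (star z * z) * T * star z := by rw [h]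
    _ = z * S * star z * (z * T * star z) := by simp only [mul_assoc]

theorem cjf_star (p : RP sd.a) (T : sd.E' E →L[ℂ] sd.E' E) :
    cjf sd E p (star T) = star (cjf sd E p T) := by
  refine cj_ind sd (P := fun p => cjf sd E p (star T) = star (cjf sd E p T)) (fun v hv => ?_) p
  rw [cjf_eq, cjf_eq, star_mul, star_mul, star_star, mul_assoc]

theorem cjf_add (p : RP sd.a) (S T : sd.E' E →L[ℂ] sd.E' E) :
    cjf sd E p (S + T) = cjf sd E p S + cjf sd E p T := by
  refine cj_ind sd (P := fun p => cjf sd E p (S + T) = cjf sd E p S + cjf sd E p T) (fun v hv => ?_) p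
  rw [cjf_eq, cjf_eq, cjf_eq, mul_add, add_mul]

theorem cjf_smul (p : RP sd.a) (r : ℂ) (T : sd.E' E →L[ℂ] sd.E' E) :
    cjf sd E p (r • T) = r • cjf sd E p T := by
  refine cj_ind sd (P := fun p => cjf sd E p (r • T) = r • cjf sd E p T) (fun v hv => ?_) p
  rw [cjf_eq, cjf_eq, mul_smul_comm, smul_mul_assoc]

theorem cjf_inj (p : RP sd.a) (T : sd.E' E →L[ℂ] sd.E' E) (h : cjf sd E p T = 0) : T = 0 := by
  revert h
  refine cj_ind sd (P := fun p => cjf sd E p T = 0 → T = 0) (fun v hv => ?_) p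
  intro h
  rw [cjf_eq] at h
  have h1 := zz_star_mul (E := E) sd v hv
  generalize amp sd.K E (zz sd.γ v) = z at h h1
  calc T = 1 * T * 1 := by rw [one_mul, mul_one]
    _ = (star z * z) * T * (star z * z) := by rw [h1]
    _ = star z * (z * T * star z) * z := by simp only [mul_assoc]
    _ = 0 := by rw [h, mul_zero, zero_mul]

theorem cjf_isUnit (p : RP sd.a) (T : sd.E' E →L[ℂ] sd.E' E) (h : IsUnit T) :
    IsUnit (cjf sd E p T) := by
  obtain ⟨u, rfl⟩ := h
  have h1 : cjf sd E p (u : sd.E' E →L[ℂ] sd.E' E) * cjf sd E p ((u⁻¹ : (sd.E' E →L[ℂ] sd.E' E)ˣ) : sd.E' E →L[ℂ] sd.E' E) = 1 := by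
    rw [← cjf_mul, Units.mul_inv, cjf_one]
  have h2 : cjf sd E p ((u⁻¹ : (sd.E' E →L[ℂ] sd.E' E)ˣ) : sd.E' E →L[ℂ] sd.E' E) * cjf sd E p (u : sd.E' E →L[ℂ] sd.E' E) = 1 := by
    rw [← cjf_mul, Units.inv_mul, cjf_one]
  exact ⟨⟨_, _, h1, h2⟩, rfl⟩

theorem cjf_continuous {Y : Type} [TopologicalSpace Y] (p : Y → RP sd.a)
    (T : Y → (sd.E' E →L[ℂ] sd.E' E)) (hp : Continuous p) (hT : Continuous T) :
    Continuous fun y => cjf sd E (p y) (T y) := by
  unfold cjf
  refine continuous_finsetSum _ fun k _ => continuous_finsetSum _ fun l _ => ?_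
  have h1 : Continuous fun y => (p y).1 := continuous_subtype_val.comp hp
  have h2 : Continuous fun y => (p y).1 k l := (continuous_apply l).comp ((continuous_apply k).comp h1)
  have h3 : Continuous fun y => (((p y).1 k l : ℝ) : ℂ) := Complex.continuous_ofReal.comp h2
  have h4 : Continuous fun y => amp sd.K E (sd.γ k) * T y * star (amp sd.K E (sd.γ l)) :=
    (continuous_const.mul hT).mul continuous_const
  exact h3.smul h4

end Pool.Agent.B9x.E
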