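import Pool.Agent.Lib.MP_b9c6dd_an.X.E.Defs

/-!
# Job E2 (Cliff): Clifford matrices

`cliff q` : for every `q ≥ 1` there are `2 q` matrices of size `2^(q-1)` with `z(v)^* z(v) = |v|²`. For `q = 1`: `1 × 1` matrices `1, i`. Step: index `Fin n ⊕ Fin n` (then
reindex to `Fin (2 n)`), `γ' k = [[γ k, 0], [0, star (γ k)]]` for the old `k`, and for the two new ones `[[0, -1], [1, 0]]` and `[[0, i], [i, 0]]`
(so with `w = s + i t`: `z' = [[z, -conj w], [w, star z]]`; `star z' * z' = (star z * z + |w|²) ⊕ (|w|² + z * star z)`; use also `z * star z = |v|²`, which follows from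
`star z * z = |v|²`: for `v ≠ 0` a left inverse of a square matrix is a right inverse; for `v = 0`, `z = 0`. `Matrix.fromBlocks` lemmas).
`exists_cliff`: `a + 1 = 2 q`, `n = 2^(q-1)`, with `q` large. `exists_cliff_sum`: take `n ≥ card Ev + 1`, `N + 1 = n - card Ev`, an equivalence
`Fin (N + 1) ⊕ Ev ≃ Fin n`, and `Matrix.reindex` (a star algebra isomorphism; `Matrix.submatrix_mul_equiv`, `Matrix.conjTranspose_submatrix`).
-/

set_option autoImplicit false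

namespace Pool.Agent.B9x.E

theorem Cliff_reindex {K K' : Type} [Fintype K] [DecidableEq K] [Fintype K'] [DecidableEq K']
    (e : K' ≃ K) {n : ℕ} (γ : Fin n → Matrix K K ℂ)
    (h : ∀ v : Fin n → ℝ, star (zz γ v) * zz γ v = ((∑ k, v k ^ 2 : ℝ) : ℂ) • 1) :
    ∃ γ' : Fin n → Matrix K' K' ℂ,
      ∀ v : Fin n → ℝ, star (zz γ' v) * zz γ' v = ((∑ k, v k ^ 2 : ℝ) : ℂ) • 1 := by
  refine ⟨fun k => (γ k).submatrix e e, fun v => ?_⟩
  have h1 : zz (fun k => (γ k).submatrix e e) v = (zz γ v).submatrix e e := by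
    unfold zz
    ext i j
    simp [Matrix.sum_apply]
  have h2 : star ((zz γ v).submatrix e e) = (star (zz γ v)).submatrix e e := by
    ext i j
    simp [Matrix.star_apply]
  rw [h1, h2, Matrix.submatrix_mul_equiv, h v]
  ext i j
  simp [Matrix.one_apply]

theorem Cliff_comm {K : Type} [Fintype K] [DecidableEq K] {n : ℕ} (γ : Fin n → Matrix K K ℂ)
    (h : ∀ v : Fin n → ℝ, star (zz γ v) * zz γ v = ((∑ k, v k ^ 2 : ℝ) : ℂ) • 1)
    (v : Fin n → ℝ) : zz γ v * star (zz γ v) = ((∑ k, v k ^ 2 : ℝ) : ℂ) • 1 := by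
  by_cases hs : (∑ k, v k ^ 2 : ℝ) = 0
  · have h0 : ∀ k, v k = 0 := by
      intro k
      have h1 := (Finset.sum_eq_zero_iff_of_nonneg fun i _ => sq_nonneg (v i)).1 hs k
        (Finset.mem_univ k)
      exact pow_eq_zero_iff (two_ne_zero) |>.1 h1
    have hz : zz γ v = 0 := by
      unfold zz
      refine Finset.sum_eq_zero fun k _ => ?_
      rw [h0 k]
      simp
    rw [hz, hs]
    simp
  · have hs' : ((∑ k, v k ^ 2 : ℝ) : ℂ) ≠ 0 := by exact_mod_cast hs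
    have h1 : (((∑ k, v k ^ 2 : ℝ) : ℂ)⁻¹ • star (zz γ v)) * zz γ v = 1 := by
      rw [Matrix.smul_mul, h v, smul_smul, inv_mul_cancel₀ hs', one_smul]
    have h2 : zz γ v * (((∑ k, v k ^ 2 : ℝ) : ℂ)⁻¹ • star (zz γ v)) = 1 :=
      mul_eq_one_comm.1 h1
    rw [Matrix.mul_smul] at h2
    calc zz γ v * star (zz γ v) = ((∑ k, v k ^ 2 : ℝ) : ℂ) • (((∑ k, v k ^ 2 : ℝ) : ℂ)⁻¹ •
          (zz γ v * star (zz γ v))) := by rw [smul_smul, mul_inv_cancel₀ hs', one_smul]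
      _ = _ := by rw [h2]

theorem Cliff_step {K : Type} [Fintype K] [DecidableEq K] {n : ℕ} (γ : Fin n → Matrix K K ℂ)
    (h : ∀ v : Fin n → ℝ, star (zz γ v) * zz γ v = ((∑ k, v k ^ 2 : ℝ) : ℂ) • 1) :
    ∃ γ' : Fin (n + 2) → Matrix (K ⊕ K) (K ⊕ K) ℂ,
      ∀ v : Fin (n + 2) → ℝ, star (zz γ' v) * zz γ' v = ((∑ k, v k ^ 2 : ℝ) : ℂ) • 1 := by
  let A : Matrix (K ⊕ K) (K ⊕ K) ℂ := Matrix.fromBlocks 0 (-1) 1 0
  let B : Matrix (K ⊕ K) (K ⊕ K) ℂ := Matrix.fromBlocks 0 (Complex.I • 1) (Complex.I • 1) 0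
  let γ1 : Fin n → Matrix (K ⊕ K) (K ⊕ K) ℂ := fun k =>
    Matrix.fromBlocks (γ k) 0 0 (star (γ k))
  let γ' : Fin (n + 1 + 1) → Matrix (K ⊕ K) (K ⊕ K) ℂ := Fin.cons A (Fin.cons B γ1)
  refine ⟨γ', fun v => ?_⟩
  set s : ℝ := v 0 with hs
  set t : ℝ := v (Fin.succ 0) with ht
  set u : Fin n → ℝ := fun k => v k.succ.succ with hu
  set w : ℂ := (s : ℂ) + (t : ℂ) * Complex.I with hw
  set z : Matrix K K ℂ := zz γ u with hz
  have e1 : zz γ' v = Matrix.fromBlocks z (-(star w) • 1) (w • 1) (star z) := by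
    have e2 : zz γ' v = (s : ℂ) • A + ((t : ℂ) • B + ∑ k : Fin n, (u k : ℂ) • γ1 k) := by
      unfold zz
      rw [Fin.sum_univ_succ, Fin.sum_univ_succ]
      rfl
    have e3 : ∑ k : Fin n, (u k : ℂ) • γ1 k = Matrix.fromBlocks z 0 0 (star z) := by
      ext i j
      rcases i with i | i <;> rcases j with j | j <;>
        simp [γ1, hz, zz, Matrix.sum_apply, Matrix.star_apply]
    rw [e2, e3]
    ext i j
    rcases i with i | i <;> rcases j with j | j
    · simp [A, B]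
    · simp [A, B, hw]
      ring
    · simp [A, B, hw]
      ring
    · simp [A, B]
  have e4 : star (zz γ' v) = Matrix.fromBlocks (star z) (star w • 1) (-w • 1) z := by
    rw [e1, Matrix.star_eq_conjTranspose, Matrix.fromBlocks_conjTranspose]
    congr 1
    · rw [Matrix.conjTranspose_smul, Matrix.conjTranspose_one]
    · rw [Matrix.conjTranspose_smul, Matrix.conjTranspose_one, star_neg, star_star]
    · rw [← Matrix.star_eq_conjTranspose, star_star]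
  have hsum : ((∑ k, v k ^ 2 : ℝ) : ℂ) = star w * w + ((∑ k, u k ^ 2 : ℝ) : ℂ) := by
    have h1 : (∑ k, v k ^ 2 : ℝ) = s ^ 2 + (t ^ 2 + ∑ k, u k ^ 2) := by
      rw [Fin.sum_univ_succ, Fin.sum_univ_succ]
    have h2 : star w * w = (s : ℂ) ^ 2 + (t : ℂ) ^ 2 := by
      rw [hw]
      simp
      ring_nf
      rw [Complex.I_sq]
      ring
    rw [h1, h2]
    push_cast
    ring
  have hzz := h u
  have hzz' := Cliff_comm γ h u
  rw [← hz] at hzz hzz'
  rw [e4, e1, Matrix.fromBlocks_multiply, hzz, hsum]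
  have m1 : (star w • (1 : Matrix K K ℂ)) * (w • 1) = (star w * w) • 1 := by
    rw [Matrix.smul_mul, Matrix.one_mul, smul_smul]
  have m2 : (-w • (1 : Matrix K K ℂ)) * (-star w • 1) = (star w * w) • 1 := by
    rw [Matrix.smul_mul, Matrix.one_mul, smul_smul]
    congr 1
    ring
  have m3 : star z * (-star w • (1 : Matrix K K ℂ)) + star w • (1 : Matrix K K ℂ) * star z = 0 := by
    rw [Matrix.mul_smul, Matrix.mul_one, Matrix.smul_mul, Matrix.one_mul, neg_smul, neg_add_cancel]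
  have m4 : (-w • (1 : Matrix K K ℂ)) * z + z * (w • (1 : Matrix K K ℂ)) = 0 := by
    rw [Matrix.mul_smul, Matrix.mul_one, Matrix.smul_mul, Matrix.one_mul, neg_smul, neg_add_cancel]
  rw [m1, m2, m3, m4, hzz']
  rw [← Matrix.fromBlocks_one, Matrix.fromBlocks_smul, smul_zero, add_smul, add_comm]

theorem Cliff_exists (q : ℕ) : ∃ (K : Type) (_ : Fintype K) (_ : DecidableEq K)
    (γ : Fin (2 * q) → Matrix K K ℂ), Fintype.card K = 2 ^ q ∧
    ∀ v : Fin (2 * q) → ℝ, star (zz γ v) * zz γ v = ((∑ k, v k ^ 2 : ℝ) : ℂ) • 1 := by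
  induction q with
  | zero =>
    refine ⟨Unit, inferInstance, inferInstance, fun _ => 0, rfl, fun v => ?_⟩
    have h1 : zz (fun _ : Fin (2 * 0) => (0 : Matrix Unit Unit ℂ)) v = 0 := by simp [zz]
    rw [h1]
    simp
  | succ q ih =>
    obtain ⟨K, i1, i2, γ, hc, h⟩ := ih
    obtain ⟨γ', h'⟩ := Cliff_step γ h
    refine ⟨K ⊕ K, inferInstance, inferInstance, γ', ?_, h'⟩
    rw [Fintype.card_sum, hc]
    ring

theorem exists_cliff (T : ℕ) : ∃ (a n : ℕ) (γ : Fin (a + 1) → Matrix (Fin n) (Fin n) ℂ),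
    T ≤ a ∧ T ≤ n ∧
    ∀ v : Fin (a + 1) → ℝ, star (zz γ v) * zz γ v = ((∑ k, v k ^ 2 : ℝ) : ℂ) • 1 := by
  obtain ⟨K, i1, i2, γ, hc, h⟩ := Cliff_exists (T + 1)
  obtain ⟨γ', h'⟩ := Cliff_reindex (Fintype.equivFinOfCardEq hc).symm γ h
  refine ⟨2 * T + 1, 2 ^ (T + 1), γ', by omega, ?_, h'⟩
  have := Nat.lt_two_pow_self (n := T + 1)
  omega

theorem exists_cliff_sum (Ev : Type) [Fintype Ev] [DecidableEq Ev] (D : ℕ) :
    ∃ (N a : ℕ) (γ : Fin (a + 1) → Matrix (Fin (N + 1) ⊕ Ev) (Fin (N + 1) ⊕ Ev) ℂ), D ≤ a ∧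
    ∀ v : Fin (a + 1) → ℝ, star (zz γ v) * zz γ v = ((∑ k, v k ^ 2 : ℝ) : ℂ) • 1 := by
  obtain ⟨K, i1, i2, γ, hc, h⟩ := Cliff_exists (D + Fintype.card Ev + 1)
  have h1 := Nat.lt_two_pow_self (n := D + Fintype.card Ev + 1)
  have hcard : Fintype.card (Fin (2 ^ (D + Fintype.card Ev + 1) - Fintype.card Ev - 1 + 1) ⊕ Ev) =
      Fintype.card K := by
    rw [Fintype.card_sum, Fintype.card_fin, hc]
    omega
  obtain ⟨γ', h'⟩ := Cliff_reindex (Fintype.equivOfCardEq hcard) γ h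
  exact ⟨_, 2 * (D + Fintype.card Ev) + 1, γ', by omega, h'⟩

end Pool.Agent.B9x.E
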