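import Pool.Agent.Lib.MP_b9c6dd_an.X.E.Ops

/-!
# The construction of a tower: definitions
-/

set_option autoImplicit false

open scoped InnerProductSpace

namespace Pool.Agent.B9x.E

/-- Scalar matrices acting on the Hilbert sum. -/
noncomputable def amp (K E : Type) [Fintype K] [DecidableEq K] [NormedAddCommGroup E]
    [InnerProductSpace ℂ E] [FiniteDimensional ℂ E] [CompleteSpace E] :
    Matrix K K ℂ →⋆ₐ[ℂ] (PiLp 2 (fun _ : K => E) →L[ℂ] PiLp 2 (fun _ : K => E)) :=
  (exists_amp K E).choose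

theorem amp_apply {K E : Type} [Fintype K] [DecidableEq K] [NormedAddCommGroup E]
    [InnerProductSpace ℂ E] [FiniteDimensional ℂ E] [CompleteSpace E] (A : Matrix K K ℂ)
    (ξ : PiLp 2 (fun _ : K => E)) (k : K) : amp K E A ξ k = ∑ l, A k l • ξ l :=
  (exists_amp K E).choose_spec A ξ k

/-- Block diagonal operators. -/
noncomputable def dg (K E : Type) [Fintype K] [DecidableEq K] [NormedAddCommGroup E]
    [InnerProductSpace ℂ E] [FiniteDimensional ℂ E] [CompleteSpace E] :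
    (K → (E →L[ℂ] E)) →⋆ₐ[ℂ] (PiLp 2 (fun _ : K => E) →L[ℂ] PiLp 2 (fun _ : K => E)) :=
  (exists_dg K E).choose

theorem dg_apply {K E : Type} [Fintype K] [DecidableEq K] [NormedAddCommGroup E]
    [InnerProductSpace ℂ E] [FiniteDimensional ℂ E] [CompleteSpace E] (T : K → (E →L[ℂ] E))
    (ξ : PiLp 2 (fun _ : K => E)) (k : K) : dg K E T ξ k = T k (ξ k) :=
  (exists_dg K E).choose_spec T ξ k

/-- The linear combination of the matrices `γ k` with real coefficients. -/
noncomputable def zz {K : Type} {n : ℕ} (γ : Fin n → Matrix K K ℂ) (v : Fin n → ℝ) : Matrix K K ℂ :=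
  ∑ k, ((v k : ℝ) : ℂ) • γ k

/-- Real projective space as the set of rank one projections. -/
def RP (a : ℕ) : Type :=
  {p : Matrix (Fin (a + 1)) (Fin (a + 1)) ℝ //
    ∃ v : Fin (a + 1) → ℝ, ∑ k, v k ^ 2 = 1 ∧ p = Matrix.vecMulVec v v}

instance (a : ℕ) : TopologicalSpace (RP a) := inferInstanceAs (TopologicalSpace (Subtype _))

/-- The line spanned by a unit vector. -/
def rpmk {a : ℕ} (v : Fin (a + 1) → ℝ) (hv : ∑ k, v k ^ 2 = 1) : RP a :=
  ⟨Matrix.vecMulVec v v, v, hv, rfl⟩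

/-- The data of one step. `Fin (N + 1)` are the free slots, `Ev` the evaluation slots. -/
structure SD (X : Type) where
  N : ℕ
  Ev : Type
  [fEv : Fintype Ev]
  [dEv : DecidableEq Ev]
  pts : Ev → X
  a : ℕ
  γ : Fin (a + 1) → Matrix (Fin (N + 1) ⊕ Ev) (Fin (N + 1) ⊕ Ev) ℂ
  hγ : ∀ v : Fin (a + 1) → ℝ, star (zz γ v) * zz γ v = ((∑ k, v k ^ 2 : ℝ) : ℂ) • 1

attribute [instance] SD.fEv SD.dEv

section

variable {X E : Type} [TopologicalSpace X] [NormedAddCommGroup E]
  [InnerProductSpace ℂ E] [FiniteDimensional ℂ E] [CompleteSpace E] (sd : SD X)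

/-- The slots. -/
abbrev SD.K : Type := Fin (sd.N + 1) ⊕ sd.Ev

/-- The new space. -/
abbrev SD.X' : Type := (Fin (sd.N + 1) × Fin 3 → X) × RP sd.a

/-- The new Hilbert space. -/
abbrev SD.E' (E : Type) [NormedAddCommGroup E] : Type := PiLp 2 (fun _ : sd.K => E)

/-- The point of slot `s` for the digit `b`. -/
def pt (b : Fin 3) (y : sd.X') (s : sd.K) : X := Sum.elim (fun r => y.1 (r, b)) sd.pts s

/-- Conjugation by the Clifford unitary of the line `p`. -/
noncomputable def cjf {X : Type} (sd : SD X) (E : Type) [NormedAddCommGroup E]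
    [InnerProductSpace ℂ E] [FiniteDimensional ℂ E] [CompleteSpace E] (p : RP sd.a)
    (T : sd.E' E →L[ℂ] sd.E' E) : sd.E' E →L[ℂ] sd.E' E :=
  ∑ k, ∑ l, ((p.1 k l : ℝ) : ℂ) • (amp sd.K E (sd.γ k) * T * star (amp sd.K E (sd.γ l)))

end

end Pool.Agent.B9x.E
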