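import Mathlib

/-!
# Job Fin0: the first algebra is finite dimensional

`C(Bool, ℂ →L[ℂ] ℂ)` is finite dimensional: it embeds linearly (injectively) into `Bool → (ℂ →L[ℂ] ℂ)`
(`FiniteDimensional.of_injective`).
-/

set_option autoImplicit false

namespace Pool.Agent.B9x.E

theorem fin0 : FiniteDimensional ℂ (⊤ : Submodule ℂ C(Bool, ℂ →L[ℂ] ℂ)) := by
  let g : C(Bool, ℂ →L[ℂ] ℂ) →ₗ[ℂ] (Bool → ℂ) :=
    { toFun := fun f b => f b 1
      map_add' := fun f g => by
        funext b
        simp
      map_smul' := fun c f => by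
        funext b
        simp }
  have hg : Function.Injective g := by
    intro f h hfh
    ext b
    exact congrFun hfh b
  have : FiniteDimensional ℂ C(Bool, ℂ →L[ℂ] ℂ) := FiniteDimensional.of_injective g hg
  infer_instance

end Pool.Agent.B9x.E
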