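import Mathlib

/-!
# Job E15 (Flat): real coordinates

`E` has an orthonormal basis `b : Fin n`; the map `x ↦ (re, im of the coordinates of x j)` is an injective continuous real linear map from `J → E` to
`(J × Fin n × Bool → ℝ)`; embed `J × Fin n × Bool` (cardinality `2 * card J * n ≤ a`) into `Fin a` and put `0` elsewhere.
-/

set_option autoImplicit false

open scoped InnerProductSpace

namespace Pool.Agent.B9x.E

theorem exists_flat (J E : Type) [Fintype J] [NormedAddCommGroup E] [InnerProductSpace ℂ E]
    [FiniteDimensional ℂ E] (a : ℕ) (h : 2 * Fintype.card J * Module.finrank ℂ E ≤ a) :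
    ∃ fl : (J → E) → (Fin a → ℝ), Continuous fl ∧ (∀ x, fl (-x) = -(fl x)) ∧
      ∀ x, fl x = 0 → x = 0 := by
  classical
  let b := stdOrthonormalBasis ℂ E
  have hcard : Fintype.card (J × Fin (Module.finrank ℂ E) × Bool) ≤ Fintype.card (Fin a) := by
    simp only [Fintype.card_prod, Fintype.card_fin, Fintype.card_bool]
    calc Fintype.card J * (Module.finrank ℂ E * 2) = 2 * Fintype.card J * Module.finrank ℂ E := by
          ring
      _ ≤ a := h
  obtain ⟨e⟩ := Function.Embedding.nonempty_of_card_le hcard
  let co : (J → E) → (J × Fin (Module.finrank ℂ E) × Bool) → ℝ := fun x p =>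
    if p.2.2 then (b.repr (x p.1) p.2.1).re else (b.repr (x p.1) p.2.1).im
  have hco : ∀ p, Continuous fun x => co x p := by
    rintro ⟨j, i, c⟩
    have h1 : Continuous fun x : J → E => b.repr (x j) i :=
      (continuous_apply i).comp ((PiLp.continuous_ofLp 2 _).comp
        (b.repr.continuous.comp (continuous_apply j)))
    cases c
    · exact Complex.continuous_im.comp h1
    · exact Complex.continuous_re.comp h1
  refine ⟨fun x => Function.extend e (co x) 0, ?_, ?_, ?_⟩
  · apply continuous_pi
    intro k
    by_cases hk : ∃ p, e p = k
    · obtain ⟨p, rfl⟩ := hk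
      simp only [e.injective.extend_apply]
      exact hco p
    · simp only [Function.extend_apply' _ _ _ hk]
      exact continuous_const
  · intro x
    funext k
    by_cases hk : ∃ p, e p = k
    · obtain ⟨p, rfl⟩ := hk
      change Function.extend e (co (-x)) 0 (e p) = -(Function.extend e (co x) 0 (e p))
      rw [e.injective.extend_apply, e.injective.extend_apply]
      simp only [co, Pi.neg_apply, map_neg, PiLp.neg_apply, Complex.neg_re, Complex.neg_im]
      split_ifs <;> rfl
    · change Function.extend e (co (-x)) 0 k = -(Function.extend e (co x) 0 k)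
      rw [Function.extend_apply' _ _ _ hk, Function.extend_apply' _ _ _ hk]
      simp
  · intro x hx
    have hz : ∀ p, co x p = 0 := by
      intro p
      have h0 : Function.extend e (co x) 0 (e p) = 0 := congrFun hx (e p)
      rw [e.injective.extend_apply] at h0
      exact h0
    funext j
    apply b.repr.injective
    ext i
    rw [Pi.zero_apply, map_zero]
    apply Complex.ext
    · exact hz (j, i, true)
    · exact hz (j, i, false)

end Pool.Agent.B9x.E
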