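import Pool.Agent.Lib.MP_b9c6dd_an.X.E.IoEx

/-!
# The connecting maps, and the new subspace
-/

set_option autoImplicit false

open scoped InnerProductSpace

namespace Pool.Agent.B9x.E

variable {X : Type} [TopologicalSpace X] (E : Type) [NormedAddCommGroup E]
  [InnerProductSpace ℂ E] [FiniteDimensional ℂ E] [CompleteSpace E] (sd : SD X)

/-- The connecting maps. -/
noncomputable def io (b : Fin 3) : C(X, E →L[ℂ] E) →⋆ₐ[ℂ] C(sd.X', sd.E' E →L[ℂ] sd.E' E) :=
  (exists_io E sd b).choose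

theorem io_apply (b : Fin 3) (f : C(X, E →L[ℂ] E)) (y : sd.X') :
    io E sd b f y = cjf sd E y.2 (dg sd.K E fun s => f (pt sd b y s)) :=
  (exists_io E sd b).choose_spec.1 f y

theorem io_inj (b : Fin 3) : Function.Injective (io E sd b) := (exists_io E sd b).choose_spec.2

/-- Conjugates of constant matrices. -/
noncomputable def th : (sd.E' E →L[ℂ] sd.E' E) →⋆ₐ[ℂ] C(sd.X', sd.E' E →L[ℂ] sd.E' E) :=
  (exists_th E sd).choose

theorem th_apply (T : sd.E' E →L[ℂ] sd.E' E) (y : sd.X') : th E sd T y = cjf sd E y.2 T :=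
  (exists_th E sd).choose_spec T y

variable {E}

/-- Generators of the new subspace. -/
noncomputable def gens (V : Submodule ℂ C(X, E →L[ℂ] E)) (W : Set C(sd.X', sd.E' E →L[ℂ] sd.E' E)) :
    Set C(sd.X', sd.E' E →L[ℂ] sd.E' E) :=
  {g | ∃ b, ∃ F ∈ V, g = io E sd b F} ∪ {g | ∃ b, ∃ F ∈ V, ∃ G ∈ V, g = io E sd b (F * G)} ∪
    Set.range (th E sd) ∪ W ∪ {g | star g ∈ W}

/-- The new subspace. -/
noncomputable def Vn (V : Submodule ℂ C(X, E →L[ℂ] E)) (W : Set C(sd.X', sd.E' E →L[ℂ] sd.E' E)) :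
    Submodule ℂ C(sd.X', sd.E' E →L[ℂ] sd.E' E) := Submodule.span ℂ (gens sd V W)

end Pool.Agent.B9x.E
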