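import Pool.Agent.Lib.MP_b9c6dd_an.X.E.Cj

/-!
# Job E5 (IoEx): the connecting maps

`exists_io`: the function `y ↦ cjf y.2 (dg (fun s => f (pt b y s)))` is continuous (`cjf_continuous`; `dg` is a `*`-homomorphism of finite dimensional C*-algebras, or of C*-algebras, so
continuous: `map_continuous` / `StarAlgHom` continuity lemma for C*-algebras `K → (E →L E)` (`Pi` instance), or it is linear on a finite dimensional space;
`y ↦ (s ↦ f (pt b y s))` is continuous by cases on `s`). Algebraic identities pointwise from `cjf_mul` ... and `map_mul` of `dg`.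
Injective: if `f x0 ≠ 0` take `y = (fun _ => x0, p)`; `dg (...) ` has the block `f x0` at the slot `Sum.inl 0`, so is nonzero (apply to `ξ = Pi.single`-like vectors); `cjf_inj`.
`exists_th`: constants.
-/

set_option autoImplicit false

open scoped InnerProductSpace

namespace Pool.Agent.B9x.E

variable {X : Type} [TopologicalSpace X] (E : Type) [NormedAddCommGroup E]
  [InnerProductSpace ℂ E] [FiniteDimensional ℂ E] [CompleteSpace E] (sd : SD X)

private theorem IoEx_pt_continuous (b : Fin 3) (s : sd.K) : Continuous fun y : sd.X' => pt sd b y s := by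
  rcases s with r | e
  · exact (continuous_apply (r, b)).comp continuous_fst
  · exact continuous_const

omit [TopologicalSpace X] in
private theorem IoEx_dg_continuous : Continuous fun T : sd.K → (E →L[ℂ] E) => dg sd.K E T :=
  LinearMap.continuous_of_finiteDimensional (dg sd.K E).toAlgHom.toLinearMap

private theorem IoEx_cont (b : Fin 3) (f : C(X, E →L[ℂ] E)) :
    Continuous fun y : sd.X' => cjf sd E y.2 (dg sd.K E fun s => f (pt sd b y s)) := by
  refine cjf_continuous sd (fun y : sd.X' => y.2) _ continuous_snd ?_
  exact (IoEx_dg_continuous E sd).comp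
    (continuous_pi fun s => f.continuous.comp (IoEx_pt_continuous sd b s))

theorem exists_io (b : Fin 3) : ∃ io : C(X, E →L[ℂ] E) →⋆ₐ[ℂ] C(sd.X', sd.E' E →L[ℂ] sd.E' E),
    (∀ f y, io f y = cjf sd E y.2 (dg sd.K E fun s => f (pt sd b y s))) ∧ Function.Injective io := by
  let io : C(X, E →L[ℂ] E) →⋆ₐ[ℂ] C(sd.X', sd.E' E →L[ℂ] sd.E' E) :=
    { toFun := fun f => ⟨fun y => cjf sd E y.2 (dg sd.K E fun s => f (pt sd b y s)), IoEx_cont E sd b f⟩
      map_one' := by
        ext1 y
        show cjf sd E y.2 (dg sd.K E (1 : sd.K → (E →L[ℂ] E))) = 1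
        rw [map_one, cjf_one]
      map_mul' := by
        intro f g
        ext1 y
        show cjf sd E y.2 (dg sd.K E ((fun s => f (pt sd b y s)) * (fun s => g (pt sd b y s)))) =
          cjf sd E y.2 (dg sd.K E fun s => f (pt sd b y s)) * cjf sd E y.2 (dg sd.K E fun s => g (pt sd b y s))
        rw [map_mul, cjf_mul]
      map_zero' := by
        ext1 y
        show cjf sd E y.2 (dg sd.K E (0 : sd.K → (E →L[ℂ] E))) = 0
        rw [map_zero]
        have h := cjf_add (E := E) sd y.2 0 0
        simpa using h
      map_add' := by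
        intro f g
        ext1 y
        show cjf sd E y.2 (dg sd.K E ((fun s => f (pt sd b y s)) + (fun s => g (pt sd b y s)))) =
          cjf sd E y.2 (dg sd.K E fun s => f (pt sd b y s)) + cjf sd E y.2 (dg sd.K E fun s => g (pt sd b y s))
        rw [map_add, cjf_add]
      commutes' := by
        intro r
        ext1 y
        rw [Algebra.algebraMap_eq_smul_one, Algebra.algebraMap_eq_smul_one]
        show cjf sd E y.2 (dg sd.K E (r • (1 : sd.K → (E →L[ℂ] E)))) = r • 1
        rw [map_smul, map_one, cjf_smul, cjf_one]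
      map_star' := by
        intro f
        ext1 y
        show cjf sd E y.2 (dg sd.K E (star (fun s => f (pt sd b y s)))) =
          star (cjf sd E y.2 (dg sd.K E fun s => f (pt sd b y s)))
        rw [map_star, cjf_star] }
  have hio : ∀ f y, io f y = cjf sd E y.2 (dg sd.K E fun s => f (pt sd b y s)) := fun f y => rfl
  refine ⟨io, hio, ?_⟩
  rw [injective_iff_map_eq_zero]
  intro f hf
  ext x0 e
  obtain ⟨p⟩ := instNonemptyRP sd.a
  have h1 : io f ((fun _ => x0), p) = 0 := by
    rw [hf]
    rfl
  rw [hio] at h1
  have h2 := cjf_inj sd p _ h1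
  have h3 := dg_apply (K := sd.K) (E := E) (fun s => f (pt sd b ((fun _ => x0), p) s))
    (WithLp.toLp 2 (fun _ => e)) (Sum.inl 0)
  rw [h2] at h3
  exact h3.symm

theorem exists_th : ∃ th : (sd.E' E →L[ℂ] sd.E' E) →⋆ₐ[ℂ] C(sd.X', sd.E' E →L[ℂ] sd.E' E),
    ∀ T y, th T y = cjf sd E y.2 T := by
  let th : (sd.E' E →L[ℂ] sd.E' E) →⋆ₐ[ℂ] C(sd.X', sd.E' E →L[ℂ] sd.E' E) :=
    { toFun := fun T => ⟨fun y => cjf sd E y.2 T,
        cjf_continuous sd (fun y : sd.X' => y.2) (fun _ => T) continuous_snd continuous_const⟩
      map_one' := by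
        ext1 y
        show cjf sd E y.2 1 = 1
        rw [cjf_one]
      map_mul' := by
        intro f g
        ext1 y
        show cjf sd E y.2 (f * g) = cjf sd E y.2 f * cjf sd E y.2 g
        rw [cjf_mul]
      map_zero' := by
        ext1 y
        show cjf sd E y.2 0 = 0
        have h := cjf_add (E := E) sd y.2 0 0
        simpa using h
      map_add' := by
        intro f g
        ext1 y
        show cjf sd E y.2 (f + g) = cjf sd E y.2 f + cjf sd E y.2 g
        rw [cjf_add]
      commutes' := by
        intro r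
        ext1 y
        rw [Algebra.algebraMap_eq_smul_one, Algebra.algebraMap_eq_smul_one]
        show cjf sd E y.2 (r • 1) = r • 1
        rw [cjf_smul, cjf_one]
      map_star' := by
        intro f
        ext1 y
        show cjf sd E y.2 (star f) = star (cjf sd E y.2 f)
        rw [cjf_star] }
  exact ⟨th, fun T y => rfl⟩

end Pool.Agent.B9x.E
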