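import Pool.Agent.Lib.MP_b9c6dd_an.X.E.Io
import Pool.Agent.Lib.MP_b9c6dd_an.X.E.Chain

/-!
# Job E9 (NearInv): the image of `F` is near an invertible element

If `F` is invertible take `T = 0`. Otherwise `chain` with `G e = F (pts e)` gives `T`; put `T' = δ • T` with `0 < δ` small: `‖th T'‖ ≤ ‖T'‖ = δ ‖T‖ ≤ ε` (star homomorphisms
are contractive, `NonUnitalStarAlgHom.norm_apply_le`). `io b F + th T'` at `y` is `cjf y.2 (dg (Sum.elim (fun r => F (y.1 (r, b))) G) + δ • T)`, a unit (`cjf_isUnit`); a continuous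
function with values in the units is a unit (`ContinuousMap.isUnit_iff_forall_isUnit`).
-/

set_option autoImplicit false

open scoped InnerProductSpace

namespace Pool.Agent.B9x.E

variable {X : Type} [TopologicalSpace X] [CompactSpace X] {E : Type} [NormedAddCommGroup E]
  [InnerProductSpace ℂ E] [FiniteDimensional ℂ E] [CompleteSpace E] (sd : SD X)

private theorem th_norm_le (T : sd.E' E →L[ℂ] sd.E' E) : ‖th E sd T‖ ≤ ‖T‖ :=
  NonUnitalStarAlgHom.norm_apply_le (th E sd).toNonUnitalStarAlgHom T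

omit [CompactSpace X] in
private theorem io_add_th_zero (b : Fin 3) (F : C(X, E →L[ℂ] E)) :
    io E sd b F + th E sd 0 = io E sd b F := by
  have h0 : th E sd 0 = 0 := map_zero (th E sd)
  ext1 y
  show io E sd b F y + th E sd 0 y = io E sd b F y
  rw [h0]
  exact add_zero _

theorem near_inv (b : Fin 3) (F : C(X, E →L[ℂ] E)) (ε : ℝ) (hε : 0 < ε)
    (h : ¬ IsUnit F → ∃ s : Finset sd.Ev, (∀ e ∈ s, ¬ IsUnit (F (sd.pts e))) ∧
      Module.finrank ℂ E ≤ s.card) :
    ∃ T : sd.E' E →L[ℂ] sd.E' E, IsUnit (io E sd b F + th E sd T) ∧ ‖th E sd T‖ ≤ ε := by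
  by_cases hF : IsUnit F
  · refine ⟨0, ?_, ?_⟩
    · rw [io_add_th_zero]
      exact IsUnit.map ((io E sd b).toAlgHom.toRingHom.toMonoidHom) hF
    · refine (th_norm_le sd 0).trans ?_
      rw [norm_zero]
      exact hε.le
  · obtain ⟨s, hs, hcard⟩ := h hF
    obtain ⟨T₀, hT₀⟩ := chain (E := E) (Ev := sd.Ev) sd.N (fun e => F (sd.pts e)) s hs hcard
    have hpos : 0 < ‖T₀‖ + 1 := by positivity
    have hδ : 0 < ε / (‖T₀‖ + 1) := by positivity
    have hδ' : ((ε / (‖T₀‖ + 1) : ℝ) : ℂ) ≠ 0 := by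
      rw [Complex.ofReal_ne_zero]
      exact hδ.ne'
    refine ⟨((ε / (‖T₀‖ + 1) : ℝ) : ℂ) • T₀, ?_, ?_⟩
    · rw [ContinuousMap.isUnit_iff_forall_isUnit]
      intro y
      show IsUnit (io E sd b F y + th E sd (((ε / (‖T₀‖ + 1) : ℝ) : ℂ) • T₀) y)
      rw [io_apply, th_apply, ← cjf_add]
      apply cjf_isUnit
      have e : (fun s => F (pt sd b y s)) =
          Sum.elim (fun r => F (y.1 (r, b))) (fun e => F (sd.pts e)) := by
        funext s
        cases s <;> rfl
      rw [e]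
      exact hT₀ (fun r => F (y.1 (r, b))) _ hδ'
    · refine (th_norm_le sd _).trans ?_
      rw [norm_smul, Complex.norm_real, Real.norm_eq_abs, abs_of_pos hδ, div_mul_eq_mul_div,
        div_le_iff₀ hpos]
      exact mul_le_mul_of_nonneg_left (by linarith) hε.le

end Pool.Agent.B9x.E
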