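import Mathlib

/-!
# Job E11 (Nets): finite nets and evaluation points

`exists_net`: the closed unit ball of the finite dimensional subspace `V` is compact, so totally bounded (`FiniteDimensional.proper`, `isCompact_closedBall`).
`exists_max`: a continuous function on a compact space attains its norm. `exists_sing`: if `F` is not a unit then some `F x` is not a unit
(`ContinuousMap.isUnit_iff_forall_isUnit`).
`exists_pts`: `Ev = (NN × Fin (finrank E)) ⊕ NN` (as `Fin` types or subtypes), `pts (inl (F, _))` = a singular point of `F` if there is one, `pts (inr F)` = a maximum point.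
-/

set_option autoImplicit false

open scoped InnerProductSpace

namespace Pool.Agent.B9x.E

theorem exists_net {A : Type} [NormedAddCommGroup A] [NormedSpace ℂ A] (V : Submodule ℂ A)
    (hV : FiniteDimensional ℂ V) (ε : ℝ) (hε : 0 < ε) :
    ∃ NN : Finset A, (∀ F ∈ NN, F ∈ V ∧ ‖F‖ ≤ 1) ∧ ∀ F ∈ V, ‖F‖ ≤ 1 → ∃ F' ∈ NN, ‖F - F'‖ ≤ ε := by
  classical
  haveI := hV
  haveI : ProperSpace V := FiniteDimensional.proper ℂ V
  have htb : TotallyBounded (Metric.closedBall (0 : V) 1) :=
    (isCompact_closedBall (0 : V) 1).totallyBounded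
  obtain ⟨t, hts, htf, hcov⟩ := Metric.finite_approx_of_totallyBounded htb ε hε
  refine ⟨htf.toFinset.image (fun v : V => (v : A)), ?_, ?_⟩
  · intro F hF
    rw [Finset.mem_image] at hF
    obtain ⟨v, hv, rfl⟩ := hF
    rw [Set.Finite.mem_toFinset] at hv
    have h1 := hts hv
    rw [mem_closedBall_zero_iff] at h1
    exact ⟨v.2, h1⟩
  · intro F hF hF1
    have h2 : (⟨F, hF⟩ : V) ∈ Metric.closedBall (0 : V) 1 := by
      rw [mem_closedBall_zero_iff]
      exact hF1
    have h3 := hcov h2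
    rw [Set.mem_iUnion₂] at h3
    obtain ⟨v, hv, hd⟩ := h3
    refine ⟨(v : A), ?_, ?_⟩
    · rw [Finset.mem_image]
      exact ⟨v, by rwa [Set.Finite.mem_toFinset], rfl⟩
    · rw [Metric.mem_ball, dist_eq_norm] at hd
      exact le_of_lt hd

theorem Nets_max {X : Type} [TopologicalSpace X] [CompactSpace X] [Nonempty X] {E : Type}
    [NormedAddCommGroup E] [InnerProductSpace ℂ E] [FiniteDimensional ℂ E] [CompleteSpace E]
    (F : C(X, E →L[ℂ] E)) : ∃ x, ‖F x‖ = ‖F‖ := by
  obtain ⟨x, _, hx⟩ := (isCompact_univ (X := X)).exists_isMaxOn Set.univ_nonempty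
    (F.continuous.norm.continuousOn)
  refine ⟨x, le_antisymm (F.norm_coe_le_norm x) ?_⟩
  rw [ContinuousMap.norm_le _ (norm_nonneg _)]
  intro y
  exact hx (Set.mem_univ y)

theorem Nets_sing {X : Type} [TopologicalSpace X] [CompactSpace X] {E : Type}
    [NormedAddCommGroup E] [InnerProductSpace ℂ E] [FiniteDimensional ℂ E] [CompleteSpace E]
    (F : C(X, E →L[ℂ] E)) (h : ¬ IsUnit F) : ∃ x, ¬ IsUnit (F x) := by
  by_contra hcon
  push Not at hcon
  exact h ((ContinuousMap.isUnit_iff_forall_isUnit F).mpr hcon)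

theorem exists_pts {X : Type} [TopologicalSpace X] [CompactSpace X] [Nonempty X] {E : Type}
    [NormedAddCommGroup E] [InnerProductSpace ℂ E] [FiniteDimensional ℂ E] [CompleteSpace E]
    (NN : Finset C(X, E →L[ℂ] E)) :
    ∃ (Ev : Type) (_ : Fintype Ev) (_ : DecidableEq Ev) (pts : Ev → X),
      (∀ F ∈ NN, ¬ IsUnit F → ∃ s : Finset Ev, (∀ e ∈ s, ¬ IsUnit (F (pts e))) ∧
        Module.finrank ℂ E ≤ s.card) ∧
      (∀ F ∈ NN, ∃ e, ‖F (pts e)‖ = ‖F‖) := by
  classical
  refine ⟨(NN × Fin (Module.finrank ℂ E)) ⊕ NN, inferInstance, Classical.decEq _,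
    Sum.elim (fun p => if h : ∃ x, ¬ IsUnit (p.1.1 x) then h.choose else Classical.arbitrary X)
      (fun p => (Nets_max p.1).choose), ?_, ?_⟩
  · intro F hF hu
    refine ⟨Finset.univ.map ⟨fun i : Fin (Module.finrank ℂ E) => Sum.inl (⟨F, hF⟩, i), ?_⟩, ?_, ?_⟩
    · intro i j hij
      simpa using hij
    · intro e he
      rw [Finset.mem_map] at he
      obtain ⟨i, _, rfl⟩ := he
      have h := Nets_sing F hu
      change ¬ IsUnit (F (if h : ∃ x, ¬ IsUnit (F x) then h.choose else Classical.arbitrary X))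
      rw [dif_pos h]
      exact h.choose_spec
    · rw [Finset.card_map, Finset.card_univ, Fintype.card_fin]
  · intro F hF
    exact ⟨Sum.inr ⟨F, hF⟩, (Nets_max F).choose_spec⟩

end Pool.Agent.B9x.E
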