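import Pool.Agent.Lib.MP_b9c6dd_an.X.E.Io

/-!
# Job ObAux: two auxiliary facts for the obstruction step

`obstr_aux`: `io b f (x, rpmk v hv) = z * dg (...) * star z` (`io_apply`, `cjf_eq`), so with `ζ = star z η` and `star z * z = 1` (`zz_star_mul`): `dg (...) ζ = star z (io .. η) = star z η = ζ`; take the
component `Sum.inl r` (`dg_apply`, `pt`).
`obstr_cont`: `zz γ (v y)` is continuous in `y` (finite sum), `amp` is a linear map of finite dimensional spaces so continuous, star is continuous, and evaluation is jointly continuous.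
-/

set_option autoImplicit false

open scoped InnerProductSpace

namespace Pool.Agent.B9x.E

variable {X : Type} [TopologicalSpace X] {E : Type} [NormedAddCommGroup E]
  [InnerProductSpace ℂ E] [FiniteDimensional ℂ E] [CompleteSpace E] (sd : SD X)

/-- If `η` is fixed by `io b f y` then the components of `star z η` in the free slots are fixed by the values of `f`. -/
theorem obstr_aux (b : Fin 3) (f : C(X, E →L[ℂ] E)) (x : Fin (sd.N + 1) × Fin 3 → X)
    (v : Fin (sd.a + 1) → ℝ) (hv : ∑ k, v k ^ 2 = 1) (η : sd.E' E)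
    (hη : io E sd b f (x, rpmk v hv) η = η) (r : Fin (sd.N + 1)) :
    f (x (r, b)) ((star (amp sd.K E (zz sd.γ v)) η) (Sum.inl r)) =
      (star (amp sd.K E (zz sd.γ v)) η) (Sum.inl r) := by
  have h1 : io E sd b f (x, rpmk v hv) = amp sd.K E (zz sd.γ v) *
      (dg sd.K E fun s => f (pt sd b (x, rpmk v hv) s)) * star (amp sd.K E (zz sd.γ v)) := by
    rw [io_apply]
    exact cjf_eq sd v hv _
  have h2 : star (amp sd.K E (zz sd.γ v)) * io E sd b f (x, rpmk v hv) =
      (dg sd.K E fun s => f (pt sd b (x, rpmk v hv) s)) * star (amp sd.K E (zz sd.γ v)) := by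
    rw [h1, ← mul_assoc, ← mul_assoc, zz_star_mul sd v hv, one_mul]
  have h3 := congrArg (fun B : sd.E' E →L[ℂ] sd.E' E => (B η) (Sum.inl r)) h2
  have h4 : (star (amp sd.K E (zz sd.γ v)) * io E sd b f (x, rpmk v hv)) η =
      star (amp sd.K E (zz sd.γ v)) η := by
    change star (amp sd.K E (zz sd.γ v)) (io E sd b f (x, rpmk v hv) η) = _
    rw [hη]
  have h5 : ((dg sd.K E fun s => f (pt sd b (x, rpmk v hv) s)) *
      star (amp sd.K E (zz sd.γ v))) η (Sum.inl r) =
      f (x (r, b)) ((star (amp sd.K E (zz sd.γ v)) η) (Sum.inl r)) :=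
    dg_apply _ _ _
  rw [← h5]
  refine h3.symm.trans ?_
  exact congrArg (fun ξ : sd.E' E => ξ (Sum.inl r)) h4

/-- `star z η` is continuous in the unit vector and `η`. -/
theorem obstr_cont {Y : Type} [TopologicalSpace Y] (v : Y → Fin (sd.a + 1) → ℝ) (η : Y → sd.E' E)
    (hv : Continuous v) (hη : Continuous η) (k : sd.K) :
    Continuous fun y => (star (amp sd.K E (zz sd.γ (v y))) (η y)) k := by
  have h1 : ∀ y, star (amp sd.K E (zz sd.γ (v y))) =
      ∑ k, ((v y k : ℝ) : ℂ) • star (amp sd.K E (sd.γ k)) := by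
    intro y
    rw [← map_star]
    unfold zz
    rw [star_sum, map_sum]
    refine Finset.sum_congr rfl fun k _ => ?_
    rw [star_smul, Complex.star_def, Complex.conj_ofReal, map_smul, map_star]
  have h2 : Continuous fun y => star (amp sd.K E (zz sd.γ (v y))) := by
    simp only [h1]
    refine continuous_finsetSum _ fun k _ => ?_
    exact (Complex.continuous_ofReal.comp ((continuous_apply k).comp hv)).smul continuous_const
  have h3 : Continuous fun y => star (amp sd.K E (zz sd.γ (v y))) (η y) := h2.clm_apply hη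
  exact (PiLp.continuous_apply 2 (fun _ : sd.K => E) k).comp h3

end Pool.Agent.B9x.E
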