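import Pool.Agent.Lib.MP_b9c6dd_an.X.E.Obstr

/-!
# Job E17 (ObBase): the base and the use of the obstruction property

`obstr_base`: take `x = fun _ => false`: then `ξ = 0` as `y () false = 0`; `bup_pi` gives a zero `v` of `F (·, x)`.
`T4_of_obstr`: suppose `‖∑ A τ * y τ * B τ - 1‖ < 1`. Take a unit vector `e : E`, `P = Empty`, `S = Unit`, `ξ () τ (_, x) = y τ (x ()) (B τ (x ()) e)`, fixed by `y τ (x ())` since `y τ` is idempotent. At a common
zero `x`: `(∑ A τ * y τ * B τ) (x ()) e = 0` so `‖(∑ ... - 1) (x ())  e‖ = ‖e‖ = 1`, but it is `≤ ‖∑ ... - 1‖ < 1` (`ContinuousMap.norm_coe_le_norm`).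
-/

set_option autoImplicit false

open scoped InnerProductSpace

namespace Pool.Agent.B9x.E

open Pool.Agent.B9x.U

theorem obstr_base : Obstr Bool ℂ Unit fun _ x => if x = true then (1 : ℂ →L[ℂ] ℂ) else 0 := by
  intro P _ _ a h χ h1 h2 S _ _ ψ F ξ hF hξ hFs hξs hfix
  obtain ⟨v, hv⟩ := bup_pi a h χ h1 h2 (fun v => F (v, fun _ => false))
    (hF.comp (continuous_id.prodMk continuous_const))
    (fun k v hk m => hFs k v _ hk m)
  refine ⟨v, fun _ => false, hv, fun s τ => ?_⟩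
  have h5 := hfix s τ v fun _ => false
  rw [← h5]
  simp

theorem T4_of_obstr {X E T : Type} [TopologicalSpace X] [CompactSpace X] [NormedAddCommGroup E]
    [InnerProductSpace ℂ E] [CompleteSpace E] [Nontrivial E] [Fintype T]
    (y : T → C(X, E →L[ℂ] E)) (hy : ∀ τ, y τ * y τ = y τ) (h : Obstr X E T fun τ x => y τ x)
    (A B : T → C(X, E →L[ℂ] E)) : 1 ≤ ‖∑ τ, A τ * y τ * B τ - 1‖ := by
  obtain ⟨e, he⟩ := exists_norm_eq E (zero_le_one (α := ℝ))
  obtain ⟨v, x, -, hx⟩ := h Empty (fun _ => 0) (fun _ => 0) (fun _ _ => false)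
    (fun k => k.elim) (fun k => k.elim) Unit (fun _ _ => false)
    (fun _ k => k.elim) (fun _ τ p => y τ (p.2 ()) (B τ (p.2 ()) e))
    (continuous_pi fun k => k.elim)
    (fun _ τ => by
      have h1 : Continuous fun p : (∀ k : Empty, Fin 0 → ℝ) × (Unit → X) => p.2 () :=
        (continuous_apply ()).comp continuous_snd
      exact ((map_continuous (y τ)).comp h1).clm_apply
        (((map_continuous (B τ)).comp h1).clm_apply continuous_const))
    (fun k => k.elim) (fun _ _ k => k.elim)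
    (fun s τ v x => by
      have h1 : (y τ * y τ) (x ()) = y τ (x ()) := by rw [hy]
      exact congrArg (fun B' : E →L[ℂ] E => B' (B τ (x ()) e)) h1)
  have h1 : (∑ τ, A τ * y τ * B τ - 1 : C(X, E →L[ℂ] E)) (x ()) e = -e := by
    have h2 : (∑ τ, A τ * y τ * B τ : C(X, E →L[ℂ] E)) (x ()) e = 0 := by
      rw [ContinuousMap.sum_apply, ContinuousLinearMap.sum_apply]
      refine Finset.sum_eq_zero fun τ _ => ?_
      change A τ (x ()) (y τ (x ()) (B τ (x ()) e)) = 0
      have h3 : y τ (x ()) (B τ (x ()) e) = 0 := hx () τ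
      rw [h3, map_zero]
    change (∑ τ, A τ * y τ * B τ : C(X, E →L[ℂ] E)) (x ()) e - e = -e
    rw [h2, zero_sub]
  have h2 : ‖(∑ τ, A τ * y τ * B τ - 1 : C(X, E →L[ℂ] E)) (x ()) e‖ ≤
      ‖(∑ τ, A τ * y τ * B τ - 1 : C(X, E →L[ℂ] E))‖ * ‖e‖ :=
    (ContinuousLinearMap.le_opNorm _ _).trans
      (mul_le_mul_of_nonneg_right (ContinuousMap.norm_coe_le_norm _ _) (norm_nonneg _))
  rw [h1, norm_neg, he, mul_one] at h2
  exact h2

end Pool.Agent.B9x.E
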