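import Pool.Agent.Lib.MP_b9c6dd_an.X.E.Obstr
import Pool.Agent.Lib.MP_b9c6dd_an.X.E.Flat
import Pool.Agent.Lib.MP_b9c6dd_an.X.E.ObAux

/-!
# Job E16 (ObStep): the obstruction property passes to the next stage

Given the data `P, a, h, χ, S, ψ, F, ξ` for the new stage, apply `h` (the property of the old stage) to:
`P' = P ⊕ S`, `a' = Sum.elim a (fun _ => sd.a)`, `h' = Sum.elim h (fun _ => H)`, `H = 1 + ∑ h k` (or `sup`),
`χ' (inl m) (inl k) = χ m k`, `χ' (inl m) (inr _) = false`, `χ' (inr s) (inl k) = ψ s k`, `χ' (inr s) (inr s') = decide (s = s')`.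
`S' = S × (Fin (N + 1) × Fin 3)`, `ψ' (s, _) (inl k) = ψ s k`, `ψ' (s, _) (inr s') = decide (s = s')`.
For `v' : ∀ k : P ⊕ S, Fin (a' k) → ℝ` let `v = v' ∘ inl`, `u s = v' (inr s)`; for `x' : S' → X` let `xs s = (fun rb => x' (s, rb), rpmk (sph (u s)) _) : sd.X'` (`exists_sph`).
`ζ s τ (v', x') = star (amp (zz γ (sph (u s)))) (ξ s τ (v, xs)) : sd.E' E`, continuous. Since `io b (y t) (xs s) = z * dg (...) * star z` (`io_apply`, `cjf_eq`) and
`io .. ξ = ξ`, `star z * z = 1` (`zz_star_mul`): `dg (fun k => y t (pt b (xs s) k)) ζ = ζ`, so for the component `k = inl r`: `y t (x' (s, r, b)) (ζ (inl r)) = ζ (inl r)`.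
New sections: `ξ' (s, r, b) t = ζ s (b, t) (inl r)`. New `F'`: `F' (inl k) = F (v, xs) k`; `F' (inr s) = fl (fun (e, b, t) => ζ s (b, t) (inr e))` with `fl` from `exists_flat`
(`J = Ev × Fin 3 × T`, `2 * card J * finrank ≤ sd.a` by `hd`).
Signs: replacing `v' (inl k)` by its negative (norm 1): `xs` is unchanged, `ξ` gets `sa (ψ s k)`, `F` gets `sa (χ m k)`. Replacing `u s0` by `- u s0` (norm 1): `sph` changes sign (`exists_sph`), `rpmk` is
unchanged (`rpmk_neg`), so `xs` and `v` are unchanged, `ζ s0` changes sign (`zz γ (-v) = - zz γ v`), `ζ s` for `s ≠ s0` is unchanged. `sa` commutes with linear maps and with `fl`.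
At a common zero: all components of `ζ s τ` vanish, so `ζ = 0` and `ξ s τ (v, xs) = z ζ = 0` (`zz_mul_star`).
`obstr_aux`, `obstr_cont` (file ObAux) isolate the computation with `ζ` and its continuity.
-/

set_option autoImplicit false

open scoped InnerProductSpace

namespace Pool.Agent.B9x.E

open Pool.Agent.B9x.U

variable {X : Type} [TopologicalSpace X] {E : Type} [NormedAddCommGroup E]
  [InnerProductSpace ℂ E] [FiniteDimensional ℂ E] [CompleteSpace E] (sd : SD X)

private theorem sa_map {V W : Type} [AddGroup V] [AddGroup W] (f : V → W) (hf : ∀ x, f (-x) = -(f x))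
    (b : Bool) (x : V) : f (sa b x) = sa b (f x) := by
  unfold sa
  cases b
  · rfl
  · exact hf x

private theorem sa_apply {E : Type} [NormedAddCommGroup E] [InnerProductSpace ℂ E]
    (b : Bool) (x : sd.E' E) (k : sd.K) : (sa b x) k = sa b (x k) := by
  unfold sa
  cases b
  · rfl
  · rfl

private theorem zz_neg {K : Type} {n : ℕ} (γ : Fin n → Matrix K K ℂ) (v : Fin n → ℝ) :
    zz γ (-v) = -(zz γ v) := by
  unfold zz
  rw [← Finset.sum_neg_distrib]
  refine Finset.sum_congr rfl fun k _ => ?_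
  rw [Pi.neg_apply, Complex.ofReal_neg, neg_smul]

theorem obstr_step {T : Type} [Fintype T] (y : T → C(X, E →L[ℂ] E))
    (hd : 2 * (3 * Fintype.card T) * Fintype.card sd.Ev * Module.finrank ℂ E ≤ sd.a)
    (h : Obstr X E T fun τ x => y τ x) :
    Obstr sd.X' (sd.E' E) (Fin 3 × T) fun τ x => io E sd τ.1 (y τ.2) x := by
  intro P _ _ a hh χ h1 h2 S _ _ ψ F ξ hFc hξc hFs hξs hfix
  obtain ⟨sph, hsc, hs1, hsn⟩ := exists_sph sd.a
  obtain ⟨fl, flc, fln, fl0⟩ := exists_flat (sd.Ev × Fin 3 × T) E sd.a (by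
    rw [Fintype.card_prod, Fintype.card_prod, Fintype.card_fin]
    calc 2 * (Fintype.card sd.Ev * (3 * Fintype.card T)) * Module.finrank ℂ E
        = 2 * (3 * Fintype.card T) * Fintype.card sd.Ev * Module.finrank ℂ E := by ring
      _ ≤ sd.a := hd)
  -- the new data
  let a' : P ⊕ S → ℕ := Sum.elim a fun _ => sd.a
  let VL : (∀ k : P ⊕ S, Fin (a' k) → ℝ) → (∀ k, Fin (a k) → ℝ) := fun v k => v (Sum.inl k)
  let UL : (∀ k : P ⊕ S, Fin (a' k) → ℝ) → S → (Fin sd.a → ℝ) := fun v s => v (Sum.inr s)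
  let XS : (∀ k : P ⊕ S, Fin (a' k) → ℝ) × (S × (Fin (sd.N + 1) × Fin 3) → X) → S → sd.X' :=
    fun p s => (fun rb => p.2 (s, rb), rpmk (sph (UL p.1 s)) (hs1 _))
  let ζ : S → Fin 3 × T → (∀ k : P ⊕ S, Fin (a' k) → ℝ) × (S × (Fin (sd.N + 1) × Fin 3) → X) →
      sd.E' E := fun s τ p =>
    star (amp sd.K E (zz sd.γ (sph (UL p.1 s)))) (ξ s τ (VL p.1, XS p))
  let h' : P ⊕ S → ℕ := Sum.elim hh fun _ => 1 + ∑ k, hh k
  let χ' : P ⊕ S → P ⊕ S → Bool := fun m k => match m, k with
    | Sum.inl m, Sum.inl k => χ m k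
    | Sum.inl _, Sum.inr _ => false
    | Sum.inr s, Sum.inl k => ψ s k
    | Sum.inr s, Sum.inr s' => decide (s = s')
  let ψ' : S × (Fin (sd.N + 1) × Fin 3) → P ⊕ S → Bool := fun s k => match k with
    | Sum.inl k => ψ s.1 k
    | Sum.inr s' => decide (s.1 = s')
  let F' : (∀ k : P ⊕ S, Fin (a' k) → ℝ) × (S × (Fin (sd.N + 1) × Fin 3) → X) →
      (∀ k : P ⊕ S, Fin (a' k) → ℝ) := fun p k => match k with
    | Sum.inl k => F (VL p.1, XS p) k
    | Sum.inr s => fl fun j => ζ s (j.2.1, j.2.2) p (Sum.inr j.1)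
  let ξ' : S × (Fin (sd.N + 1) × Fin 3) → T →
      (∀ k : P ⊕ S, Fin (a' k) → ℝ) × (S × (Fin (sd.N + 1) × Fin 3) → X) → E :=
    fun s t p => ζ s.1 (s.2.2, t) p (Sum.inl s.2.1)
  -- continuity
  have cVL : Continuous VL := continuous_pi fun k => continuous_apply (Sum.inl k)
  have cUL : ∀ s, Continuous fun v => UL v s := fun s => continuous_apply (Sum.inr s)
  have cZ : ∀ s, Continuous fun p : (∀ k : P ⊕ S, Fin (a' k) → ℝ) ×
      (S × (Fin (sd.N + 1) × Fin 3) → X) => sph (UL p.1 s) := fun s =>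
    hsc.comp ((cUL s).comp continuous_fst)
  have cXS : Continuous XS := by
    refine continuous_pi fun s => ?_
    refine Continuous.prodMk (continuous_pi fun rb => (continuous_apply (s, rb)).comp continuous_snd) ?_
    exact continuous_rpmk _ _ (cZ s)
  have cVX : Continuous fun p : (∀ k : P ⊕ S, Fin (a' k) → ℝ) ×
      (S × (Fin (sd.N + 1) × Fin 3) → X) => (VL p.1, XS p) :=
    (cVL.comp continuous_fst).prodMk cXS
  have cζ : ∀ s τ k, Continuous fun p => ζ s τ p k := fun s τ k =>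
    obstr_cont sd _ _ (cZ s) ((hξc s τ).comp cVX) k
  have cF' : Continuous F' := by
    refine continuous_pi fun k => ?_
    cases k with
    | inl k => exact (continuous_apply k).comp (hFc.comp cVX)
    | inr s => exact flc.comp (continuous_pi fun j => cζ s (j.2.1, j.2.2) (Sum.inr j.1))
  have cξ' : ∀ s t, Continuous (ξ' s t) := fun s t => cζ s.1 (s.2.2, t) (Sum.inl s.2.1)
  -- updates
  have uVL1 : ∀ (v : ∀ k : P ⊕ S, Fin (a' k) → ℝ) (k : P) (w : Fin (a' (Sum.inl k)) → ℝ),
      VL (Function.update v (Sum.inl k) w) = Function.update (VL v) k w := by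
    intro v k w
    funext m
    by_cases hm : m = k
    · subst hm
      exact (Function.update_self (Sum.inl m) w v).trans
        (Function.update_self (β := fun k => Fin (a k) → ℝ) m w (VL v)).symm
    · exact (Function.update_of_ne (fun h => hm (Sum.inl_injective h)) w v).trans
        (Function.update_of_ne (β := fun k => Fin (a k) → ℝ) hm w (VL v)).symm
  have uUL1 : ∀ (v : ∀ k : P ⊕ S, Fin (a' k) → ℝ) (k : P) (w : Fin (a' (Sum.inl k)) → ℝ) (s : S),
      UL (Function.update v (Sum.inl k) w) s = UL v s := by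
    intro v k w s
    exact Function.update_of_ne (Sum.inr_ne_inl) w v
  have uVL2 : ∀ (v : ∀ k : P ⊕ S, Fin (a' k) → ℝ) (s : S) (w : Fin (a' (Sum.inr s)) → ℝ),
      VL (Function.update v (Sum.inr s) w) = VL v := by
    intro v s w
    funext m
    exact Function.update_of_ne (Sum.inl_ne_inr) w v
  have uUL2 : ∀ (v : ∀ k : P ⊕ S, Fin (a' k) → ℝ) (s : S) (w : Fin (a' (Sum.inr s)) → ℝ) (s' : S),
      s' ≠ s → UL (Function.update v (Sum.inr s) w) s' = UL v s' := by
    intro v s w s' hs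
    exact Function.update_of_ne (fun h => hs (Sum.inr_injective h)) w v
  have uUL3 : ∀ (v : ∀ k : P ⊕ S, Fin (a' k) → ℝ) (s : S) (w : Fin (a' (Sum.inr s)) → ℝ),
      UL (Function.update v (Sum.inr s) w) s = w := by
    intro v s w
    exact Function.update_self (Sum.inr s) w v
  -- effect on `XS`
  have xXS1 : ∀ (v : ∀ k : P ⊕ S, Fin (a' k) → ℝ) (x : S × (Fin (sd.N + 1) × Fin 3) → X) (k : P)
      (w : Fin (a' (Sum.inl k)) → ℝ), XS (Function.update v (Sum.inl k) w, x) = XS (v, x) := by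
    intro v x k w
    funext s
    have h5 : sph (UL (Function.update v (Sum.inl k) w) s) = sph (UL v s) :=
      congrArg sph (uUL1 v k w s)
    refine Prod.ext rfl (Subtype.ext ?_)
    exact congrArg (fun u => Matrix.vecMulVec u u) h5
  have xXS2 : ∀ (v : ∀ k : P ⊕ S, Fin (a' k) → ℝ) (x : S × (Fin (sd.N + 1) × Fin 3) → X) (s : S),
      ‖UL v s‖ = 1 → XS (Function.update v (Sum.inr s) (-(v (Sum.inr s))), x) = XS (v, x) := by
    intro v x s hs
    funext s'
    refine Prod.ext rfl ?_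
    by_cases hss : s' = s
    · subst hss
      refine rpmk_neg _ _ (hs1 _) (hs1 _) ?_
      exact (congrArg sph (uUL3 v s' (-(v (Sum.inr s'))))).trans (hsn _ hs)
    · refine Subtype.ext ?_
      exact congrArg (fun u => Matrix.vecMulVec u u)
        (congrArg sph (uUL2 v s (-(v (Sum.inr s))) s' hss))
  -- effect on `ζ`
  have hG : ∀ (s : S) (τ : Fin 3 × T) (u u' : Fin sd.a → ℝ)
      (p p' : (∀ k, Fin (a k) → ℝ) × (S → sd.X')), u = u' → p = p' →
      star (amp sd.K E (zz sd.γ (sph u))) (ξ s τ p) =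
        star (amp sd.K E (zz sd.γ (sph u'))) (ξ s τ p') := by
    rintro s τ u _ p _ rfl rfl
    rfl
  have zζ1 : ∀ (s : S) (τ : Fin 3 × T) (k : P) (v : ∀ k : P ⊕ S, Fin (a' k) → ℝ)
      (x : S × (Fin (sd.N + 1) × Fin 3) → X), ‖v (Sum.inl k)‖ = 1 →
      ζ s τ (Function.update v (Sum.inl k) (-(v (Sum.inl k))), x) = sa (ψ s k) (ζ s τ (v, x)) := by
    intro s τ k v x hv
    refine (hG s τ _ (UL v s) _ (Function.update (VL v) k (-(VL v k)), XS (v, x))
      (uUL1 v k (-(v (Sum.inl k))) s)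
      (Prod.ext (uVL1 v k (-(v (Sum.inl k)))) (xXS1 v x k (-(v (Sum.inl k)))))).trans ?_
    rw [hξs s τ k (VL v) (XS (v, x)) hv]
    exact sa_map _ (fun x => map_neg _ x) _ _
  have zζ2 : ∀ (s : S) (τ : Fin 3 × T) (s' : S) (v : ∀ k : P ⊕ S, Fin (a' k) → ℝ)
      (x : S × (Fin (sd.N + 1) × Fin 3) → X), ‖UL v s'‖ = 1 →
      ζ s τ (Function.update v (Sum.inr s') (-(v (Sum.inr s'))), x) =
        sa (decide (s = s')) (ζ s τ (v, x)) := by
    intro s τ s' v x hv
    by_cases hss : s = s'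
    · subst hss
      refine (hG s τ _ (-(UL v s)) _ (VL v, XS (v, x)) (uUL3 v s (-(v (Sum.inr s))))
        (Prod.ext (uVL2 v s (-(v (Sum.inr s)))) (xXS2 v x s hv))).trans ?_
      rw [hsn _ hv, zz_neg, map_neg, decide_eq_true rfl]
      exact congrArg (fun B : sd.E' E →L[ℂ] sd.E' E => B (ξ s τ (VL v, XS (v, x))))
        (star_neg (amp sd.K E (zz sd.γ (sph (UL v s)))))
    · refine (hG s τ _ (UL v s) _ (VL v, XS (v, x)) (uUL2 v s' (-(v (Sum.inr s'))) s hss)
        (Prod.ext (uVL2 v s' (-(v (Sum.inr s')))) (xXS2 v x s' hv))).trans ?_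
      rw [decide_eq_false hss]
      rfl
  have g1 : ∀ k, χ' k k = true := by
    intro k
    cases k with
    | inl k => exact h1 k
    | inr s => exact decide_eq_true rfl
  have g2 : ∀ k m, χ' k m = true → m ≠ k → h' m < h' k := by
    intro k m hkm hne
    cases k with
    | inl k =>
      cases m with
      | inl m => exact h2 k m hkm fun h => hne (congrArg Sum.inl h)
      | inr s => exact absurd hkm (by simp [χ'])
    | inr s =>
      cases m with
      | inl m =>
        change hh m < 1 + ∑ k, hh k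
        have h5 : hh m ≤ ∑ k, hh k := Finset.single_le_sum (fun i _ => Nat.zero_le (hh i))
          (Finset.mem_univ m)
        omega
      | inr s' =>
        exfalso
        have h5 : s = s' := of_decide_eq_true hkm
        exact hne (congrArg Sum.inr h5.symm)
  have g3 : ∀ (k : P ⊕ S) (v : ∀ k : P ⊕ S, Fin (a' k) → ℝ) (x : S × (Fin (sd.N + 1) × Fin 3) → X), ‖v k‖ = 1 →
      ∀ m, F' (Function.update v k (-(v k)), x) m = sa (χ' m k) (F' (v, x) m) := by
    intro k v x hv m
    cases k with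
    | inl k =>
      cases m with
      | inl m =>
        refine Eq.trans ?_ (hFs k (VL v) (XS (v, x)) hv m)
        exact congrFun (congrArg F (Prod.ext (uVL1 v k (-(v (Sum.inl k))))
          (xXS1 v x k (-(v (Sum.inl k)))))) m
      | inr s =>
        change (fl fun j => ζ s (j.2.1, j.2.2) (Function.update v (Sum.inl k) (-(v (Sum.inl k))), x)
          (Sum.inr j.1)) = sa (ψ s k) (fl fun j => ζ s (j.2.1, j.2.2) (v, x) (Sum.inr j.1))
        rw [← sa_map fl fln]
        congr 1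
        funext j
        rw [zζ1 s _ k v x hv, sa_apply]
        unfold sa
        cases ψ s k
        · rfl
        · rfl
    | inr s0 =>
      cases m with
      | inl m =>
        exact congrFun (congrArg F (Prod.ext (uVL2 v s0 (-(v (Sum.inr s0)))) (xXS2 v x s0 hv))) m
      | inr s =>
        change (fl fun j => ζ s (j.2.1, j.2.2) (Function.update v (Sum.inr s0) (-(v (Sum.inr s0))), x)
          (Sum.inr j.1)) = sa (decide (s = s0)) (fl fun j => ζ s (j.2.1, j.2.2) (v, x) (Sum.inr j.1))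
        rw [← sa_map fl fln]
        congr 1
        funext j
        rw [zζ2 s _ s0 v x hv, sa_apply]
        unfold sa
        cases decide (s = s0)
        · rfl
        · rfl
  have g4 : ∀ (s : S × (Fin (sd.N + 1) × Fin 3)) (t : T) (k : P ⊕ S) (v : ∀ k : P ⊕ S, Fin (a' k) → ℝ)
      (x : S × (Fin (sd.N + 1) × Fin 3) → X), ‖v k‖ = 1 →
      ξ' s t (Function.update v k (-(v k)), x) = sa (ψ' s k) (ξ' s t (v, x)) := by
    intro s t k v x hv
    cases k with
    | inl k =>
      change ζ s.1 (s.2.2, t) (Function.update v (Sum.inl k) (-(v (Sum.inl k))), x) (Sum.inl s.2.1) =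
        sa (ψ s.1 k) (ζ s.1 (s.2.2, t) (v, x) (Sum.inl s.2.1))
      rw [zζ1 s.1 _ k v x hv, sa_apply]
    | inr s0 =>
      change ζ s.1 (s.2.2, t) (Function.update v (Sum.inr s0) (-(v (Sum.inr s0))), x) (Sum.inl s.2.1) =
        sa (decide (s.1 = s0)) (ζ s.1 (s.2.2, t) (v, x) (Sum.inl s.2.1))
      rw [zζ2 s.1 _ s0 v x hv, sa_apply]
  have g5 : ∀ (s : S × (Fin (sd.N + 1) × Fin 3)) (t : T) (v : ∀ k : P ⊕ S, Fin (a' k) → ℝ)
      (x : S × (Fin (sd.N + 1) × Fin 3) → X), y t (x s) (ξ' s t (v, x)) = ξ' s t (v, x) := by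
    intro s t v x
    exact obstr_aux sd s.2.2 (y t) (fun rb => x (s.1, rb)) (sph (UL v s.1)) (hs1 _)
      (ξ s.1 (s.2.2, t) (VL v, XS (v, x))) (hfix s.1 (s.2.2, t) (VL v) (XS (v, x))) s.2.1
  obtain ⟨v, x, hF0, hξ0⟩ := h (P ⊕ S) a' h' χ' g1 g2 (S × (Fin (sd.N + 1) × Fin 3)) ψ' F' ξ'
    cF' cξ' g3 g4 g5
  refine ⟨VL v, XS (v, x), ?_, ?_⟩
  · funext k
    exact congrFun hF0 (Sum.inl k)
  · intro s τ
    obtain ⟨b, t⟩ := τ
    have h5 : ζ s (b, t) (v, x) = 0 := by
      ext k
      cases k with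
      | inl r => exact hξ0 (s, (r, b)) t
      | inr e =>
        have h6 := fl0 _ (congrFun hF0 (Sum.inr s))
        exact congrFun h6 (e, b, t)
    have h6 := congrArg (amp sd.K E (zz sd.γ (sph (UL v s)))) h5
    rw [map_zero] at h6
    have h7 : (amp sd.K E (zz sd.γ (sph (UL v s))) *
        star (amp sd.K E (zz sd.γ (sph (UL v s))))) (ξ s (b, t) (VL v, XS (v, x))) = 0 := h6
    rw [zz_mul_star sd _ (hs1 _)] at h7
    exact h7

end Pool.Agent.B9x.E
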