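import Pool.Agent.Lib.MP_b9c6dd_an.X.E.Io
import Pool.Agent.Lib.MP_b9c6dd_an.X.U.Pi

/-!
# The obstruction property
-/

set_option autoImplicit false

open scoped InnerProductSpace

namespace Pool.Agent.B9x.E

open Pool.Agent.B9x.U

/-- The obstruction property of a family `y` of operator valued functions. -/
def Obstr (X E T : Type) [TopologicalSpace X] [NormedAddCommGroup E] [InnerProductSpace ℂ E]
    (y : T → X → (E →L[ℂ] E)) : Prop :=
  ∀ (P : Type) [Fintype P] [DecidableEq P] (a h : P → ℕ) (χ : P → P → Bool),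
    (∀ k, χ k k = true) → (∀ k m, χ k m = true → m ≠ k → h m < h k) →
  ∀ (S : Type) [Fintype S] [DecidableEq S] (ψ : S → P → Bool)
    (F : ((∀ k, Fin (a k) → ℝ) × (S → X)) → (∀ k, Fin (a k) → ℝ))
    (ξ : S → T → ((∀ k, Fin (a k) → ℝ) × (S → X)) → E),
    Continuous F → (∀ s τ, Continuous (ξ s τ)) →
    (∀ (k : P) (v : ∀ k, Fin (a k) → ℝ) (x : S → X), ‖v k‖ = 1 → ∀ m,
      F (Function.update v k (-(v k)), x) m = sa (χ m k) (F (v, x) m)) →
    (∀ (s : S) (τ : T) (k : P) (v : ∀ k, Fin (a k) → ℝ) (x : S → X), ‖v k‖ = 1 →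
      ξ s τ (Function.update v k (-(v k)), x) = sa (ψ s k) (ξ s τ (v, x))) →
    (∀ (s : S) (τ : T) (v : ∀ k, Fin (a k) → ℝ) (x : S → X),
      y τ (x s) (ξ s τ (v, x)) = ξ s τ (v, x)) →
    ∃ (v : ∀ k, Fin (a k) → ℝ) (x : S → X), F (v, x) = 0 ∧ ∀ s τ, ξ s τ (v, x) = 0

end Pool.Agent.B9x.E
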