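import Mathlib

/-!
# Job E1 (Ops): matrices of scalars and block diagonal operators on a Hilbert sum

`PiLp 2 (fun _ : K => E)`: `(amp A ξ) k = ∑ l, A k l • ξ l`, `(dg T ξ) k = T k (ξ k)`. All linear maps are continuous
(`LinearMap.toContinuousLinearMap`, finite dimension); the adjoints are computed with
`PiLp.inner_apply` and `ContinuousLinearMap.eq_adjoint_iff` (star is the adjoint).
-/

set_option autoImplicit false

open scoped InnerProductSpace

namespace Pool.Agent.B9x.E

theorem exists_amp (K E : Type) [Fintype K] [DecidableEq K] [NormedAddCommGroup E]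
    [InnerProductSpace ℂ E] [FiniteDimensional ℂ E] [CompleteSpace E] :
    ∃ amp : Matrix K K ℂ →⋆ₐ[ℂ] (PiLp 2 (fun _ : K => E) →L[ℂ] PiLp 2 (fun _ : K => E)),
      ∀ A ξ k, amp A ξ k = ∑ l, A k l • ξ l := by
  let L : Matrix K K ℂ → (PiLp 2 (fun _ : K => E) →ₗ[ℂ] PiLp 2 (fun _ : K => E)) := fun A =>
    { toFun := fun ξ => WithLp.toLp 2 fun k => ∑ l, A k l • ξ l
      map_add' := fun ξ η => by
        ext k
        simp [smul_add, Finset.sum_add_distrib]
      map_smul' := fun c ξ => by
        ext k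
        simp [Finset.smul_sum, smul_comm c] }
  have hL : ∀ (A : Matrix K K ℂ) (ξ : PiLp 2 (fun _ : K => E)) (k : K),
      L A ξ k = ∑ l, A k l • ξ l := fun A ξ k => rfl
  let f : Matrix K K ℂ → (PiLp 2 (fun _ : K => E) →L[ℂ] PiLp 2 (fun _ : K => E)) := fun A =>
    LinearMap.toContinuousLinearMap (L A)
  have hf : ∀ (A : Matrix K K ℂ) (ξ : PiLp 2 (fun _ : K => E)) (k : K),
      f A ξ k = ∑ l, A k l • ξ l := fun A ξ k => rfl
  refine ⟨{ toFun := f, map_one' := ?_, map_mul' := ?_, map_zero' := ?_, map_add' := ?_,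
            commutes' := ?_, map_star' := ?_ }, hf⟩
  · ext ξ k
    rw [hf]
    simp [Matrix.one_apply]
  · intro A B
    ext ξ k
    have hm : (f A * f B) ξ = f A (f B ξ) := rfl
    rw [hm, hf, hf]
    simp only [hf, Matrix.mul_apply, Finset.sum_smul, Finset.smul_sum, mul_smul]
    rw [Finset.sum_comm]
  · ext ξ k
    simp [hf]
  · intro A B
    ext ξ k
    simp [hf, add_smul, Finset.sum_add_distrib]
  · intro c
    ext ξ k
    simp [hf, Algebra.algebraMap_eq_smul_one, Matrix.one_apply]
  · intro A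
    rw [ContinuousLinearMap.star_eq_adjoint, ContinuousLinearMap.eq_adjoint_iff]
    intro ξ η
    simp only [PiLp.inner_apply, hf, sum_inner, inner_sum, inner_smul_left, inner_smul_right,
      Matrix.star_apply]
    rw [Finset.sum_comm]
    refine Finset.sum_congr rfl fun l _ => Finset.sum_congr rfl fun k _ => ?_
    simp

theorem exists_dg (K E : Type) [Fintype K] [DecidableEq K] [NormedAddCommGroup E]
    [InnerProductSpace ℂ E] [FiniteDimensional ℂ E] [CompleteSpace E] :
    ∃ dg : (K → (E →L[ℂ] E)) →⋆ₐ[ℂ] (PiLp 2 (fun _ : K => E) →L[ℂ] PiLp 2 (fun _ : K => E)),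
      ∀ T ξ k, dg T ξ k = T k (ξ k) := by
  let L : (K → (E →L[ℂ] E)) → (PiLp 2 (fun _ : K => E) →ₗ[ℂ] PiLp 2 (fun _ : K => E)) := fun T =>
    { toFun := fun ξ => WithLp.toLp 2 fun k => T k (ξ k)
      map_add' := fun ξ η => by
        ext k
        simp
      map_smul' := fun c ξ => by
        ext k
        simp }
  let f : (K → (E →L[ℂ] E)) → (PiLp 2 (fun _ : K => E) →L[ℂ] PiLp 2 (fun _ : K => E)) := fun T =>
    LinearMap.toContinuousLinearMap (L T)
  have hf : ∀ (T : K → (E →L[ℂ] E)) (ξ : PiLp 2 (fun _ : K => E)) (k : K),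
      f T ξ k = T k (ξ k) := fun T ξ k => rfl
  refine ⟨{ toFun := f, map_one' := ?_, map_mul' := ?_, map_zero' := ?_, map_add' := ?_,
            commutes' := ?_, map_star' := ?_ }, hf⟩
  · ext ξ k
    simp [hf]
  · intro A B
    ext ξ k
    have hm : (f A * f B) ξ = f A (f B ξ) := rfl
    rw [hm, hf, hf, hf]
    rfl
  · ext ξ k
    simp [hf]
  · intro A B
    ext ξ k
    simp [hf]
  · intro c
    ext ξ k
    simp [hf, Algebra.algebraMap_eq_smul_one]
  · intro T
    rw [ContinuousLinearMap.star_eq_adjoint, ContinuousLinearMap.eq_adjoint_iff]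
    intro ξ η
    simp only [PiLp.inner_apply, hf, Pi.star_apply]
    refine Finset.sum_congr rfl fun k _ => ?_
    rw [ContinuousLinearMap.star_eq_adjoint, ContinuousLinearMap.adjoint_inner_left]

end Pool.Agent.B9x.E
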