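import Mathlib

/-!
# Job E10 (Polar): polar decomposition of an invertible element
-/

set_option autoImplicit false

namespace Pool.Agent.B9x.E

theorem polar {A : Type} [CStarAlgebra A] (g : A) (hg : IsUnit g) :
    ∃ W ∈ unitary A, ∀ η : ℝ, 0 < η → ∃ h : A, (g + (η : ℂ) • W) * h = 1 ∧
      h * (g + (η : ℂ) • W) = 1 ∧ ‖h‖ ≤ 1 / η := by
  set a : A := star g * g with ha
  have hsa : IsSelfAdjoint a := IsSelfAdjoint.star_mul_self g
  have hunit : IsUnit a := hg.star.mul hg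
  have hnn : ∀ x ∈ spectrum ℝ a, 0 < x := by
    intro x hx
    have h0 : 0 ≤ x := spectrum_star_mul_self_nonneg x hx
    have h1 : x ≠ 0 := by
      rintro rfl
      exact spectrum.zero_notMem ℝ hunit hx
    exact lt_of_le_of_ne h0 (Ne.symm h1)
  have hsq : ∀ x ∈ spectrum ℝ a, 0 < Real.sqrt x := fun x hx => Real.sqrt_pos.2 (hnn x hx)
  have hc1 : ContinuousOn (fun x : ℝ => Real.sqrt x) (spectrum ℝ a) := Real.continuous_sqrt.continuousOn
  have hc2 : ContinuousOn (fun x : ℝ => (Real.sqrt x)⁻¹) (spectrum ℝ a) :=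
    hc1.inv₀ (fun x hx => (hsq x hx).ne')
  set p : A := cfc (fun x : ℝ => Real.sqrt x) a with hp
  set q : A := cfc (fun x : ℝ => (Real.sqrt x)⁻¹) a with hq
  have hpq : p * q = 1 := by
    rw [hp, hq, ← cfc_mul (fun x : ℝ => Real.sqrt x) (fun x : ℝ => (Real.sqrt x)⁻¹) a hc1 hc2]
    rw [cfc_congr (g := fun _ : ℝ => (1:ℝ))]
    · exact cfc_const_one ℝ a
    · intro x hx
      exact mul_inv_cancel₀ (hsq x hx).ne'
  have hqp : q * p = 1 := by
    rw [hp, hq, ← cfc_mul (fun x : ℝ => (Real.sqrt x)⁻¹) (fun x : ℝ => Real.sqrt x) a hc2 hc1]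
    rw [cfc_congr (g := fun _ : ℝ => (1:ℝ))]
    · exact cfc_const_one ℝ a
    · intro x hx
      exact inv_mul_cancel₀ (hsq x hx).ne'
  have hpp : p * p = a := by
    rw [hp, ← cfc_mul (fun x : ℝ => Real.sqrt x) (fun x : ℝ => Real.sqrt x) a hc1 hc1]
    conv_rhs => rw [← cfc_id ℝ a]
    apply cfc_congr
    intro x hx
    exact Real.mul_self_sqrt (hnn x hx).le
  have hqs : star q = q := (cfc_predicate (R := ℝ) (fun x : ℝ => (Real.sqrt x)⁻¹) a : IsSelfAdjoint _).star_eq
  set W : A := g * q with hW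
  have hWW : star W * W = 1 := by
    rw [hW, star_mul, hqs]
    calc q * star g * (g * q) = q * a * q := by rw [ha]; simp only [mul_assoc]
      _ = q * (p * p) * q := by rw [hpp]
      _ = (q * p) * (p * q) := by simp only [mul_assoc]
      _ = 1 := by rw [hqp, hpq, mul_one]
  have hWu : IsUnit W := hg.mul ⟨⟨q, p, hqp, hpq⟩, rfl⟩
  have hWW2 : W * star W = 1 := by
    obtain ⟨w, hw⟩ := hWu
    have h1 : star W = ↑w⁻¹ := by
      rw [← hw] at hWW ⊢
      exact (Units.eq_inv_of_mul_eq_one_right hWW)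
    rw [h1, ← hw]
    exact w.mul_inv
  have hWmem : W ∈ unitary A := Unitary.mem_iff.2 ⟨hWW, hWW2⟩
  refine ⟨W, hWmem, ?_⟩
  intro η hη
  have hgW : W * p = g := by rw [hW, mul_assoc, hqp, mul_one]
  have hpos : ∀ x : ℝ, 0 < Real.sqrt x + η := fun x => add_pos_of_nonneg_of_pos (Real.sqrt_nonneg x) hη
  have hc3 : ContinuousOn (fun x : ℝ => Real.sqrt x + η) (spectrum ℝ a) := hc1.add continuousOn_const
  have hc4 : ContinuousOn (fun x : ℝ => (Real.sqrt x + η)⁻¹) (spectrum ℝ a) :=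
    hc3.inv₀ (fun x _ => (hpos x).ne')
  set r : A := cfc (fun x : ℝ => (Real.sqrt x + η)⁻¹) a with hr
  have hs : cfc (fun x : ℝ => Real.sqrt x + η) a = p + algebraMap ℝ A η := by
    rw [cfc_add_const η (fun x : ℝ => Real.sqrt x) a hc1]
  have hsr : (p + algebraMap ℝ A η) * r = 1 := by
    rw [← hs, hr, ← cfc_mul (fun x : ℝ => Real.sqrt x + η) (fun x : ℝ => (Real.sqrt x + η)⁻¹) a hc3 hc4]
    rw [cfc_congr (g := fun _ : ℝ => (1:ℝ))]
    · exact cfc_const_one ℝ a
    · intro x _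
      exact mul_inv_cancel₀ (hpos x).ne'
  have hrs : r * (p + algebraMap ℝ A η) = 1 := by
    rw [← hs, hr, ← cfc_mul (fun x : ℝ => (Real.sqrt x + η)⁻¹) (fun x : ℝ => Real.sqrt x + η) a hc4 hc3]
    rw [cfc_congr (g := fun _ : ℝ => (1:ℝ))]
    · exact cfc_const_one ℝ a
    · intro x _
      exact inv_mul_cancel₀ (hpos x).ne'
  have hsum : g + (η : ℂ) • W = W * (p + algebraMap ℝ A η) := by
    rw [mul_add, hgW, Algebra.algebraMap_eq_smul_one, mul_smul_comm, mul_one]
    rfl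
  refine ⟨r * star W, ?_, ?_, ?_⟩
  · rw [hsum]
    calc W * (p + algebraMap ℝ A η) * (r * star W) = W * ((p + algebraMap ℝ A η) * r) * star W := by
          simp only [mul_assoc]
      _ = 1 := by rw [hsr, mul_one, hWW2]
  · rw [hsum]
    calc r * star W * (W * (p + algebraMap ℝ A η)) = r * (star W * W) * (p + algebraMap ℝ A η) := by
          simp only [mul_assoc]
      _ = 1 := by rw [hWW, mul_one, hrs]
  · have h1 : ‖r * star W‖ = ‖r‖ := CStarRing.norm_mul_mem_unitary r (Unitary.star_mem hWmem)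
    rw [h1, hr]
    apply norm_cfc_le (by positivity)
    intro x _
    rw [Real.norm_eq_abs, abs_of_pos (inv_pos.2 (hpos x)), one_div]
    exact inv_anti₀ hη (by linarith [Real.sqrt_nonneg x])

end Pool.Agent.B9x.E
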