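import Pool.Agent.Lib.MP_b9c6dd_an.X.E.Defs

/-!
# Job E3 (RPtop): topology of `RP a`, the sphere parametrisation

`RP a` is the image of the compact set `{v | ∑ v k ^ 2 = 1}` under the continuous map `v ↦ vecMulVec v v`, so compact (`isCompact_iff_compactSpace`).
`sph u = (1 / r) • (u, 1 - ‖u‖)` with `r = sqrt (∑ u k ^ 2 + (1 - ‖u‖)^2) > 0` (sup norm `‖u‖`; if `∑ u k^2 = 0` then `u = 0` and `1 - ‖u‖ = 1`). Use `Fin.snoc` for the last coordinate.
-/

set_option autoImplicit false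

open scoped InnerProductSpace

namespace Pool.Agent.B9x.E

private theorem RPtop_sphere (n : ℕ) : IsCompact {v : Fin n → ℝ | ∑ k, v k ^ 2 = 1} := by
  refine Metric.isCompact_of_isClosed_isBounded ?_ ?_
  · exact isClosed_eq (continuous_finsetSum _ fun k _ => (continuous_apply k).pow 2) continuous_const
  · refine (Metric.isBounded_closedBall (x := (0 : Fin n → ℝ)) (r := 1)).subset ?_
    intro v hv
    rw [mem_closedBall_zero_iff, pi_norm_le_iff_of_nonneg zero_le_one]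
    intro k
    have h1 : v k ^ 2 ≤ ∑ k, v k ^ 2 :=
      Finset.single_le_sum (f := fun k => v k ^ 2) (fun j _ => sq_nonneg (v j)) (Finset.mem_univ k)
    have h2 : ∑ k, v k ^ 2 = 1 := hv
    rw [Real.norm_eq_abs]
    exact abs_le_one_iff_mul_self_le_one.2 (by nlinarith)

instance instCompactRP (a : ℕ) : CompactSpace (RP a) := by
  have h : IsCompact {p : Matrix (Fin (a + 1)) (Fin (a + 1)) ℝ |
      ∃ v : Fin (a + 1) → ℝ, ∑ k, v k ^ 2 = 1 ∧ p = Matrix.vecMulVec v v} := by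
    have h1 := (RPtop_sphere (a + 1)).image
      (f := fun v : Fin (a + 1) → ℝ => Matrix.vecMulVec v v)
      (Continuous.matrix_vecMulVec continuous_id continuous_id)
    have h2 : {p : Matrix (Fin (a + 1)) (Fin (a + 1)) ℝ |
        ∃ v : Fin (a + 1) → ℝ, ∑ k, v k ^ 2 = 1 ∧ p = Matrix.vecMulVec v v} =
        (fun v : Fin (a + 1) → ℝ => Matrix.vecMulVec v v) '' {v | ∑ k, v k ^ 2 = 1} := by
      ext p
      constructor
      · rintro ⟨v, hv, rfl⟩
        exact ⟨v, hv, rfl⟩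
      · rintro ⟨v, hv, rfl⟩
        exact ⟨v, hv, rfl⟩
    rw [h2]
    exact h1
  exact isCompact_iff_compactSpace.1 h

instance instNonemptyRP (a : ℕ) : Nonempty (RP a) := by
  refine ⟨rpmk (Pi.single 0 1) ?_⟩
  rw [Finset.sum_eq_single 0]
  · simp
  · intro b _ hb
    simp [hb]
  · simp

theorem continuous_rpmk {Y : Type} [TopologicalSpace Y] {a : ℕ} (v : Y → Fin (a + 1) → ℝ)
    (hv : ∀ y, ∑ k, v y k ^ 2 = 1) (hc : Continuous v) : Continuous fun y => rpmk (v y) (hv y) := by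
  exact Continuous.subtype_mk (Continuous.matrix_vecMulVec hc hc) _

theorem rpmk_neg {a : ℕ} (v w : Fin (a + 1) → ℝ) (hv : ∑ k, v k ^ 2 = 1) (hw : ∑ k, w k ^ 2 = 1)
    (h : w = -v) : rpmk w hw = rpmk v hv := by
  subst h
  apply Subtype.ext
  show Matrix.vecMulVec (-v) (-v) = Matrix.vecMulVec v v
  ext i j
  simp [Matrix.vecMulVec_apply]

theorem exists_sph (a : ℕ) : ∃ sph : (Fin a → ℝ) → (Fin (a + 1) → ℝ), Continuous sph ∧
    (∀ u, ∑ k, sph u k ^ 2 = 1) ∧ (∀ u, ‖u‖ = 1 → sph (-u) = -(sph u)) := by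
  have hpos : ∀ u : Fin a → ℝ, 0 < ∑ k, u k ^ 2 + (1 - ‖u‖) ^ 2 := by
    intro u
    by_cases hu : u = 0
    · subst hu
      simp
    · obtain ⟨k, hk⟩ := Function.ne_iff.1 hu
      have h1 : 0 < u k ^ 2 := by
        have : u k ≠ 0 := hk
        positivity
      have h2 : u k ^ 2 ≤ ∑ k, u k ^ 2 :=
        Finset.single_le_sum (f := fun k => u k ^ 2) (fun j _ => sq_nonneg (u j)) (Finset.mem_univ k)
      have h3 := sq_nonneg (1 - ‖u‖)
      linarith
  refine ⟨fun u => (1 / Real.sqrt (∑ k, u k ^ 2 + (1 - ‖u‖) ^ 2)) •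
    (Fin.snoc u (1 - ‖u‖) : Fin (a + 1) → ℝ), ?_, ?_, ?_⟩
  · have hc : Continuous fun u : Fin a → ℝ => ∑ k, u k ^ 2 + (1 - ‖u‖) ^ 2 := by
      fun_prop
    have h1 : Continuous fun u : Fin a → ℝ => 1 / Real.sqrt (∑ k, u k ^ 2 + (1 - ‖u‖) ^ 2) := by
      refine continuous_const.div (Real.continuous_sqrt.comp hc) ?_
      intro u
      exact (Real.sqrt_pos.2 (hpos u)).ne'
    have h2 : Continuous fun u : Fin a → ℝ => (Fin.snoc u (1 - ‖u‖) : Fin (a + 1) → ℝ) := by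
      refine continuous_pi fun k => ?_
      refine Fin.lastCases ?_ (fun i => ?_) k
      · simp only [Fin.snoc_last]
        fun_prop
      · simp only [Fin.snoc_castSucc]
        fun_prop
    exact h1.smul h2
  · intro u
    rw [Fin.sum_univ_castSucc]
    simp only [Pi.smul_apply, Fin.snoc_last, Fin.snoc_castSucc, smul_eq_mul, mul_pow]
    rw [← Finset.mul_sum, ← mul_add, div_pow, Real.sq_sqrt (hpos u).le, one_pow]
    exact one_div_mul_cancel (hpos u).ne'
  · intro u hu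
    have h1 : (Fin.snoc (-u) (1 - ‖-u‖) : Fin (a + 1) → ℝ) = -(Fin.snoc u (1 - ‖u‖) : Fin (a + 1) → ℝ) := by
      funext k
      refine Fin.lastCases ?_ (fun i => ?_) k
      · simp [hu]
      · simp
    show (1 / Real.sqrt (∑ k, (-u) k ^ 2 + (1 - ‖-u‖) ^ 2)) • (Fin.snoc (-u) (1 - ‖-u‖) : Fin (a + 1) → ℝ) =
      -((1 / Real.sqrt (∑ k, u k ^ 2 + (1 - ‖u‖) ^ 2)) • (Fin.snoc u (1 - ‖u‖) : Fin (a + 1) → ℝ))
    rw [h1, smul_neg]
    simp

end Pool.Agent.B9x.E
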