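import Pool.Agent.Lib.MP_b9c6dd_an.X.A.DSum

/-!
# Job E18 (RepC): a faithful representation of `C(X, B(E))`

`exists_dsum` with `Ω = X`, `ev x f = f x`. Faithful: if `f x ξ ≠ 0`, apply to `lp.single 2 x ξ`.
-/

set_option autoImplicit false

open scoped InnerProductSpace ENNReal

namespace Pool.Agent.B9x.E

/-- Evaluation at a point. -/
private noncomputable def evC (X E : Type) [TopologicalSpace X] [CompactSpace X]
    [NormedAddCommGroup E] [InnerProductSpace ℂ E] [CompleteSpace E] (x : X) :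
    C(X, E →L[ℂ] E) →⋆ₐ[ℂ] (E →L[ℂ] E) where
  toFun f := f x
  map_one' := rfl
  map_mul' _ _ := rfl
  map_zero' := rfl
  map_add' _ _ := rfl
  commutes' _ := rfl
  map_star' _ := rfl

theorem exists_repC (X E : Type) [TopologicalSpace X] [CompactSpace X] [NormedAddCommGroup E]
    [InnerProductSpace ℂ E] [CompleteSpace E] :
    ∃ π : C(X, E →L[ℂ] E) →⋆ₐ[ℂ] (lp (fun _ : X => E) 2 →L[ℂ] lp (fun _ : X => E) 2),
      Function.Injective π := by
  classical
  obtain ⟨D, hD⟩ := Pool.Agent.B9x.A.exists_dsum (evC X E)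
  refine ⟨D, (injective_iff_map_eq_zero D).2 fun f hf => ?_⟩
  ext x ξ
  have h1 := hD f (lp.single 2 x ξ) x
  rw [hf] at h1
  have h2 : (lp.single 2 x ξ : lp (fun _ : X => E) 2) x = ξ := lp.single_apply_self (E := fun _ : X => E) 2 x ξ
  rw [h2] at h1
  exact h1.symm

end Pool.Agent.B9x.E
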