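import Pool.Agent.Lib.MP_b9c6dd_an.X.E.StepEx
import Pool.Agent.Lib.MP_b9c6dd_an.X.E.ObStep
import Pool.Agent.Lib.MP_b9c6dd_an.X.E.ObBase
import Pool.Agent.Lib.MP_b9c6dd_an.X.E.RepC
import Pool.Agent.Lib.MP_b9c6dd_an.X.E.Fin0
import Pool.Agent.Lib.MP_b9c6dd_an.X.A.Defs

/-!
# The stages of the construction
-/

set_option autoImplicit false

open scoped InnerProductSpace

namespace Pool.Agent.B9x.E

/-- A stage. -/
structure Stage where
  X : Type
  E : Type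
  [tX : TopologicalSpace X]
  [cX : CompactSpace X]
  [nX : Nonempty X]
  [gE : NormedAddCommGroup E]
  [iE : InnerProductSpace ℂ E]
  [fE : FiniteDimensional ℂ E]
  [hE : CompleteSpace E]
  [ntE : Nontrivial E]
  V : Submodule ℂ C(X, E →L[ℂ] E)
  fV : FiniteDimensional ℂ V
  one_mem : 1 ∈ V
  star_mem : ∀ F ∈ V, star F ∈ V

attribute [instance] Stage.tX Stage.cX Stage.nX Stage.gE Stage.iE Stage.fE Stage.hE Stage.ntE

/-- The algebra of a stage. -/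
abbrev Stage.D (s : Stage) : Type := C(s.X, s.E →L[ℂ] s.E)

/-- The data of a step starting at a stage. -/
structure StepD (s : Stage) (i : ℕ) where
  sd : SD s.X
  W : Set C(sd.X', sd.E' s.E →L[ℂ] sd.E' s.E)
  hW : W.Finite
  dim : 2 * 3 ^ (i + 1) * Fintype.card sd.Ev * Module.finrank ℂ s.E ≤ sd.a
  T2 : ∀ F ∈ s.V, ‖F‖ ≤ 1 → ∀ b, ∀ η : ℝ, 0 < η → ∃ g ∈ Vn sd s.V W,
    ∃ h : C(sd.X', sd.E' s.E →L[ℂ] sd.E' s.E), g * h = 1 ∧ h * g = 1 ∧ ‖h‖ ≤ 1 / η ∧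
      ‖io s.E sd b F - g‖ ≤ 1 / ((i : ℝ) + 1) + η
  T3 : ∀ F ∈ s.V, ‖F‖ = 1 → ∃ (n : ℕ) (R : Fin n → C(sd.X', sd.E' s.E →L[ℂ] sd.E' s.E)) (κ : ℝ),
    (∀ q, R q ∈ Vn sd s.V W) ∧ 1 / 4 ≤ κ ∧ ∑ q, star (R q) * R q = 1 ∧
    ∑ q, star (R q) * io s.E sd 1 (star F * F) * R q =
      (κ : ℂ) • (1 : C(sd.X', sd.E' s.E →L[ℂ] sd.E' s.E))

theorem exists_stepD (s : Stage) (i : ℕ) : Nonempty (StepD s i) := by
  obtain ⟨sd, W, h1, h2, h3, h4⟩ := exists_step s.V s.fV i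
  exact ⟨⟨sd, W, h1, h2, h3, h4⟩⟩

/-- The chosen step. -/
noncomputable def theStep (s : Stage) (i : ℕ) : StepD s i := Classical.choice (exists_stepD s i)

/-- The next stage. -/
noncomputable def nextS (s : Stage) (i : ℕ) : Stage where
  X := (theStep s i).sd.X'
  E := (theStep s i).sd.E' s.E
  V := Vn (theStep s i).sd s.V (theStep s i).W
  fV := Vn_fd _ _ _ s.fV (theStep s i).hW
  one_mem := Vn_one _ _ _
  star_mem := Vn_star _ _ _ s.star_mem

/-- The first stage. -/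
noncomputable def stage0 : Stage where
  X := Bool
  E := ℂ
  V := ⊤
  fV := fin0
  one_mem := trivial
  star_mem := fun _ _ => trivial

/-- The stages. -/
noncomputable def stage : ℕ → Stage
  | 0 => stage0
  | i + 1 => nextS (stage i) i

/-- The connecting maps of the tower. -/
noncomputable def ioS (i : ℕ) (b : Fin 3) : (stage i).D →⋆ₐ[ℂ] (stage (i + 1)).D :=
  io (stage i).E (theStep (stage i) i).sd b

end Pool.Agent.B9x.E
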