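import Pool.Agent.Lib.MP_b9c6dd_an.X.E.VnProps

/-!
# Job E13 (T3): fullness

Let `F ∈ V`, `‖F‖ = 1`, `F' ∈ NN` with `‖F - F'‖ ≤ ε ≤ 1/8`, `e ∈ Ev` with `‖F' (pts e)‖ = ‖F'‖`: `‖F (pts e)‖ ≥ 1 - 2 ε ≥ 3/4`, so there is a unit vector `η0 : E` with
`‖F (pts e) η0‖ ≥ 1/2` (definition of the operator norm). `ξ : sd.E' E`, `ξ (inr e) = η0`, `0` elsewhere; a unit vector. Let `b_q` (`q : Fin n`) be an orthonormal basis of `sd.E' E`
(`stdOrthonormalBasis`), `r_q = |ξ⟩⟨b_q|` (`InnerProductSpace.rankOne` or `(innerSL ℂ (b q)).smulRight ξ`), `R q = th r_q ∈ Vn`. `star r_q * r_q = |b_q⟩⟨b_q|` sums to `1`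
(`∑ ⟪b_q, x⟫ b_q = x`). At `y`: `star (R q) * io 1 (star F * F) * R q = cjf y.2 (star r_q * dg (...) * r_q)` (`io_apply`, `th_apply`, `cjf_mul`) and
`star r_q * D * r_q = ⟪ξ, D ξ⟫ • |b_q⟩⟨b_q|`, `⟪ξ, D ξ⟫ = ⟪η0, (star F * F) (pts e) η0⟫ = ‖F (pts e) η0‖² =: κ ≥ 1/4`. The digit is `1`, but any digit works.
-/

set_option autoImplicit false

open scoped InnerProductSpace

namespace Pool.Agent.B9x.E

theorem T3_sum {H : Type} [NormedAddCommGroup H] [InnerProductSpace ℂ H] [FiniteDimensional ℂ H]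
    [CompleteSpace H] (D : H →L[ℂ] H) (ξ : H) :
    ∑ q, star (InnerProductSpace.rankOne ℂ ξ (stdOrthonormalBasis ℂ H q)) * D *
      (InnerProductSpace.rankOne ℂ ξ (stdOrthonormalBasis ℂ H q)) =
        ⟪ξ, D ξ⟫_ℂ • (1 : H →L[ℂ] H) := by
  ext x
  rw [sum_apply]
  have h1 : ∀ q, (star (InnerProductSpace.rankOne ℂ ξ (stdOrthonormalBasis ℂ H q)) * D *
      (InnerProductSpace.rankOne ℂ ξ (stdOrthonormalBasis ℂ H q))) x =
      ⟪ξ, D ξ⟫_ℂ • (⟪stdOrthonormalBasis ℂ H q, x⟫_ℂ • stdOrthonormalBasis ℂ H q) := by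
    intro q
    rw [ContinuousLinearMap.star_eq_adjoint, InnerProductSpace.adjoint_rankOne]
    change InnerProductSpace.rankOne ℂ (stdOrthonormalBasis ℂ H q) ξ
      (D (InnerProductSpace.rankOne ℂ ξ (stdOrthonormalBasis ℂ H q) x)) = _
    rw [InnerProductSpace.rankOne_apply, InnerProductSpace.rankOne_apply, map_smul,
      inner_smul_right, smul_smul, mul_comm]
  rw [Finset.sum_congr rfl (fun q _ => h1 q), ← Finset.smul_sum, OrthonormalBasis.sum_repr']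
  rfl

theorem T3_vec {H : Type} [NormedAddCommGroup H] [InnerProductSpace ℂ H] (T : H →L[ℂ] H)
    (h : 1 / 2 < ‖T‖) : ∃ η : H, ‖η‖ = 1 ∧ 1 / 2 ≤ ‖T η‖ := by
  by_contra hcon
  push Not at hcon
  have h1 : ‖T‖ ≤ 1 / 2 := by
    apply ContinuousLinearMap.opNorm_le_of_unit_norm (by norm_num)
    intro x hx
    exact (hcon x hx).le
  linarith

variable {X : Type} [TopologicalSpace X] [CompactSpace X] {E : Type} [NormedAddCommGroup E]
  [InnerProductSpace ℂ E] [FiniteDimensional ℂ E] [CompleteSpace E] (sd : SD X)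

theorem step_T3 (V : Submodule ℂ C(X, E →L[ℂ] E)) (W : Set C(sd.X', sd.E' E →L[ℂ] sd.E' E))
    (ε : ℝ) (hε : ε ≤ 1 / 8)
    (NN : Finset C(X, E →L[ℂ] E)) (hN : ∀ F ∈ NN, F ∈ V ∧ ‖F‖ ≤ 1)
    (hnet : ∀ F ∈ V, ‖F‖ ≤ 1 → ∃ F' ∈ NN, ‖F - F'‖ ≤ ε)
    (hm : ∀ F ∈ NN, ∃ e, ‖F (sd.pts e)‖ = ‖F‖) :
    ∀ F ∈ V, ‖F‖ = 1 → ∃ (n : ℕ) (R : Fin n → C(sd.X', sd.E' E →L[ℂ] sd.E' E)) (κ : ℝ),
      (∀ q, R q ∈ Vn sd V W) ∧ 1 / 4 ≤ κ ∧ ∑ q, star (R q) * R q = 1 ∧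
      ∑ q, star (R q) * io E sd 1 (star F * F) * R q =
        (κ : ℂ) • (1 : C(sd.X', sd.E' E →L[ℂ] sd.E' E)) := by
  classical
  intro F hF hF1
  obtain ⟨F', hF', hd⟩ := hnet F hF hF1.le
  obtain ⟨e, he⟩ := hm F' hF'
  have hn : 1 / 2 < ‖F (sd.pts e)‖ := by
    have h1 : ‖F' (sd.pts e)‖ ≤ ‖F (sd.pts e)‖ + ‖F - F'‖ := by
      have h2 : ‖(F - F') (sd.pts e)‖ ≤ ‖F - F'‖ := ContinuousMap.norm_coe_le_norm _ _
      have h3 : F' (sd.pts e) = F (sd.pts e) - (F - F') (sd.pts e) := by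
        rw [ContinuousMap.sub_apply]
        abel
      calc ‖F' (sd.pts e)‖ = ‖F (sd.pts e) - (F - F') (sd.pts e)‖ := by rw [← h3]
        _ ≤ ‖F (sd.pts e)‖ + ‖(F - F') (sd.pts e)‖ := norm_sub_le _ _
        _ ≤ _ := by gcongr
    have h4 : ‖F‖ ≤ ‖F'‖ + ‖F - F'‖ := by
      calc ‖F‖ = ‖F' + (F - F')‖ := by rw [add_sub_cancel]
        _ ≤ _ := norm_add_le _ _
    rw [he] at h1
    rw [hF1] at h4
    linarith
  obtain ⟨η, hη1, hη2⟩ := T3_vec (F (sd.pts e)) hn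
  let ξ : sd.E' E := WithLp.toLp 2 (Pi.single (Sum.inr e) η : sd.K → E)
  have hξ : ∀ D : sd.K → (E →L[ℂ] E), ⟪ξ, dg sd.K E D ξ⟫_ℂ = ⟪η, D (Sum.inr e) η⟫_ℂ := by
    intro D
    rw [PiLp.inner_apply, Finset.sum_eq_single (Sum.inr e)]
    · rw [dg_apply]
      have h5 : ξ (Sum.inr e) = η := by
        change (Pi.single (Sum.inr e) η : sd.K → E) (Sum.inr e) = η
        exact Pi.single_eq_same _ _
      rw [h5]
    · intro k _ hk
      have h6 : ξ k = 0 := by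
        change (Pi.single (Sum.inr e) η : sd.K → E) k = 0
        exact Pi.single_eq_of_ne hk _
      rw [h6, inner_zero_left]
    · intro h7
      exact absurd (Finset.mem_univ _) h7
  have hξ1 : ⟪ξ, ξ⟫_ℂ = 1 := by
    have h8 := hξ 1
    rw [map_one] at h8
    have h9 : ⟪η, (1 : sd.K → (E →L[ℂ] E)) (Sum.inr e) η⟫_ℂ = ⟪η, η⟫_ℂ := rfl
    rw [h9, inner_self_eq_norm_sq_to_K, hη1] at h8
    simpa using h8
  let r : Fin (Module.finrank ℂ (sd.E' E)) → (sd.E' E →L[ℂ] sd.E' E) := fun q =>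
    InnerProductSpace.rankOne ℂ ξ (stdOrthonormalBasis ℂ (sd.E' E) q)
  have hth1 : th E sd 1 = 1 := by
    ext1 y
    rw [th_apply, cjf_one]
    rfl
  have hr : ∀ D : sd.E' E →L[ℂ] sd.E' E, ∑ q, star (r q) * D * r q = ⟪ξ, D ξ⟫_ℂ • 1 :=
    fun D => T3_sum D ξ
  refine ⟨Module.finrank ℂ (sd.E' E), fun q => th E sd (r q), ‖F (sd.pts e) η‖ ^ 2, ?_, ?_, ?_, ?_⟩
  · intro q
    exact Vn_th sd V W _
  · nlinarith [hη2]
  · have h10 := hr 1
    simp only [mul_one] at h10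
    calc ∑ q, star (th E sd (r q)) * th E sd (r q) = ∑ q, th E sd (star (r q) * r q) := by
          apply Finset.sum_congr rfl
          intro q _
          rw [map_mul, map_star]
      _ = th E sd (∑ q, star (r q) * r q) := (map_sum (th E sd) _ _).symm
      _ = 1 := by
          rw [h10]
          have h11 : ⟪ξ, (1 : sd.E' E →L[ℂ] sd.E' E) ξ⟫_ℂ = 1 := hξ1
          rw [h11, one_smul, hth1]
  · ext1 y
    have h12 : (io E sd 1 (star F * F)) y =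
        (th E sd (dg sd.K E fun s => (star F * F) (pt sd 1 y s))) y := by
      rw [io_apply, th_apply]
    have h13 : (∑ q, star (th E sd (r q)) * io E sd 1 (star F * F) * th E sd (r q)) y =
        ∑ q, star (th E sd (r q) y) * (io E sd 1 (star F * F) y) * (th E sd (r q) y) := by
      rw [ContinuousMap.sum_apply]
      rfl
    rw [h13, h12]
    have h14 := congrArg (fun T => (th E sd T) y)
      (hr (dg sd.K E fun s => (star F * F) (pt sd 1 y s)))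
    have h15 : (th E sd (∑ q, star (r q) * (dg sd.K E fun s => (star F * F) (pt sd 1 y s)) *
        r q)) y = ∑ q, star (th E sd (r q) y) *
          (th E sd (dg sd.K E fun s => (star F * F) (pt sd 1 y s)) y) * (th E sd (r q) y) := by
      rw [map_sum, ContinuousMap.sum_apply]
      apply Finset.sum_congr rfl
      intro q _
      rw [map_mul, map_mul, map_star]
      rfl
    rw [← h15]
    refine h14.trans ?_
    have h16 : ⟪ξ, (dg sd.K E fun s => (star F * F) (pt sd 1 y s)) ξ⟫_ℂ =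
        ((‖F (sd.pts e) η‖ ^ 2 : ℝ) : ℂ) := by
      rw [hξ]
      change ⟪η, (star (F (sd.pts e)) * F (sd.pts e)) η⟫_ℂ = _
      rw [ContinuousLinearMap.star_eq_adjoint]
      change ⟪η, ContinuousLinearMap.adjoint (F (sd.pts e)) (F (sd.pts e) η)⟫_ℂ = _
      rw [ContinuousLinearMap.adjoint_inner_right, inner_self_eq_norm_sq_to_K]
      push_cast
      rfl
    change (th E sd (⟪ξ, (dg sd.K E fun s => (star F * F) (pt sd 1 y s)) ξ⟫_ℂ • 1)) y = _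
    rw [h16, map_smul, hth1]

end Pool.Agent.B9x.E
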