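import Pool.Agent.Lib.MP_b9c6dd_an.X.E.T2
import Pool.Agent.Lib.MP_b9c6dd_an.X.E.T3
import Pool.Agent.Lib.MP_b9c6dd_an.X.E.Nets
import Pool.Agent.Lib.MP_b9c6dd_an.X.E.Cliff

/-!
# Job E14 (StepEx): one step of the construction

`ε = 1 / (8 (i + 1))`, `NN` from `exists_net`, `Ev`, `pts` from `exists_pts`, `N, a, γ` from `exists_cliff_sum Ev D` with `D = 2 * 3^(i+1) * card Ev * finrank E`; `sd` = these data;
`step_T2` (note `2 ε ≤ 1 / (i + 1)`) and `step_T3`.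
-/

set_option autoImplicit false

open scoped InnerProductSpace

namespace Pool.Agent.B9x.E

variable {X : Type} [TopologicalSpace X] [CompactSpace X] [Nonempty X] {E : Type}
  [NormedAddCommGroup E] [InnerProductSpace ℂ E] [FiniteDimensional ℂ E] [CompleteSpace E]

theorem exists_step (V : Submodule ℂ C(X, E →L[ℂ] E)) (hV : FiniteDimensional ℂ V) (i : ℕ) :
    ∃ (sd : SD X) (W : Set C(sd.X', sd.E' E →L[ℂ] sd.E' E)), W.Finite ∧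
      2 * 3 ^ (i + 1) * Fintype.card sd.Ev * Module.finrank ℂ E ≤ sd.a ∧
      (∀ F ∈ V, ‖F‖ ≤ 1 → ∀ b, ∀ η : ℝ, 0 < η → ∃ g ∈ Vn sd V W,
        ∃ h : C(sd.X', sd.E' E →L[ℂ] sd.E' E), g * h = 1 ∧ h * g = 1 ∧ ‖h‖ ≤ 1 / η ∧
          ‖io E sd b F - g‖ ≤ 1 / ((i : ℝ) + 1) + η) ∧
      (∀ F ∈ V, ‖F‖ = 1 → ∃ (n : ℕ) (R : Fin n → C(sd.X', sd.E' E →L[ℂ] sd.E' E)) (κ : ℝ),
        (∀ q, R q ∈ Vn sd V W) ∧ 1 / 4 ≤ κ ∧ ∑ q, star (R q) * R q = 1 ∧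
        ∑ q, star (R q) * io E sd 1 (star F * F) * R q =
          (κ : ℂ) • (1 : C(sd.X', sd.E' E →L[ℂ] sd.E' E))) := by
  have hi : (0 : ℝ) < (i : ℝ) + 1 := by positivity
  have hε : (0 : ℝ) < 1 / (8 * ((i : ℝ) + 1)) := by positivity
  have hε1 : 1 / (8 * ((i : ℝ) + 1)) ≤ 1 / 8 := by
    apply one_div_le_one_div_of_le (by norm_num)
    have h0 : (0 : ℝ) ≤ i := Nat.cast_nonneg i
    linarith
  have hε2 : 2 * (1 / (8 * ((i : ℝ) + 1))) ≤ 1 / ((i : ℝ) + 1) := by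
    have h1 : 2 * (1 / (8 * ((i : ℝ) + 1))) = 1 / 4 * (1 / ((i : ℝ) + 1)) := by
      field_simp
      norm_num
    rw [h1]
    have h2 : 0 < 1 / ((i : ℝ) + 1) := by positivity
    linarith
  obtain ⟨NN, hN, hnet⟩ := exists_net V hV _ hε
  obtain ⟨Ev, fEv, dEv, pts, hs, hm⟩ := exists_pts NN
  obtain ⟨N, a, γ, hD, hγ⟩ := exists_cliff_sum Ev
    (2 * 3 ^ (i + 1) * Fintype.card Ev * Module.finrank ℂ E)
  let sd : SD X := ⟨N, Ev, pts, a, γ, hγ⟩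
  obtain ⟨W, hW, h2⟩ := step_T2 sd V _ hε NN hN hnet hs
  refine ⟨sd, W, hW, hD, ?_, ?_⟩
  · intro F hF hF1 b η hη
    obtain ⟨g, hg, h, h3, h4, h5, h6⟩ := h2 F hF hF1 b η hη
    exact ⟨g, hg, h, h3, h4, h5, h6.trans (by linarith)⟩
  · exact step_T3 sd V W _ hε1 NN hN hnet hm

end Pool.Agent.B9x.E
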