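import Pool.Agent.Lib.MP_b9c6dd_an.X.E.VnProps
import Pool.Agent.Lib.MP_b9c6dd_an.X.E.NearInv
import Pool.Agent.Lib.MP_b9c6dd_an.X.E.Polar

/-!
# Job E12 (T2): approximation by invertible elements

`NN` a finite `ε`-net of the unit ball of `V`. For `F ∈ NN`, `b` choose `T` by `near_inv` (with `ε`) and `W(F,b)` by `polar` for `g = io b F + th T`. `W` = the finite set of all `W(F,b)`.
For `F ∈ V`, `‖F‖ ≤ 1` take `F' ∈ NN` with `‖F - F'‖ ≤ ε`, `g' = io b F' + th T + η • W(F', b) ∈ Vn` with inverse `h`, `‖h‖ ≤ 1/η`,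
`‖io b F - g'‖ ≤ ‖F - F'‖ + ‖th T‖ + η ≤ 2 ε + η` (`‖W‖ ≤ 1`, `io` contractive).
-/

set_option autoImplicit false

open scoped InnerProductSpace

namespace Pool.Agent.B9x.E

theorem T2_polar {A : Type} [CStarAlgebra A] (g : A) (hg : IsUnit g) :
    ∃ W : A, star W * W = 1 ∧ ∀ η : ℝ, 0 < η → ∃ h : A, (g + (η : ℂ) • W) * h = 1 ∧
      h * (g + (η : ℂ) • W) = 1 ∧ ‖h‖ ≤ 1 / η := by
  obtain ⟨W, hW1, hW2⟩ := polar g hg
  exact ⟨W, (Unitary.mem_iff.mp hW1).1, hW2⟩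

theorem T2_norm {A : Type} [CStarAlgebra A] (a a' d t w : A) (ε η : ℝ) (hη : 0 < η)
    (ha : d = a - a') (h1 : ‖d‖ ≤ ε) (h2 : ‖t‖ ≤ ε) (h3 : star w * w = 1) :
    ‖a - (a' + t + (η : ℂ) • w)‖ ≤ 2 * ε + η := by
  have n3 : ‖(η : ℂ) • w‖ ≤ η := by
    rw [norm_smul, Complex.norm_real, Real.norm_of_nonneg hη.le]
    have n4 : ‖w‖ ≤ 1 := by
      have n6 := CStarRing.norm_star_mul_self (x := w)
      rw [h3] at n6
      rcases subsingleton_or_nontrivial A with hA | hA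
      · rw [Subsingleton.elim w 0, norm_zero]
        exact zero_le_one
      · rw [CStarRing.norm_one] at n6
        nlinarith [norm_nonneg w]
    calc η * ‖w‖ ≤ η * 1 := by gcongr
      _ = η := mul_one η
  have e1 : a - (a' + t + (η : ℂ) • w) = d - t - (η : ℂ) • w := by
    rw [ha]
    abel
  rw [e1]
  calc ‖d - t - (η : ℂ) • w‖ ≤ ‖d - t‖ + ‖(η : ℂ) • w‖ := norm_sub_le _ _
    _ ≤ ‖d‖ + ‖t‖ + ‖(η : ℂ) • w‖ := by
        gcongr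
        exact norm_sub_le _ _
    _ ≤ ε + ε + η := by gcongr
    _ = 2 * ε + η := by ring

variable {X : Type} [TopologicalSpace X] [CompactSpace X] {E : Type} [NormedAddCommGroup E]
  [InnerProductSpace ℂ E] [FiniteDimensional ℂ E] [CompleteSpace E] (sd : SD X)

theorem step_T2 (V : Submodule ℂ C(X, E →L[ℂ] E)) (ε : ℝ) (hε : 0 < ε)
    (NN : Finset C(X, E →L[ℂ] E)) (hN : ∀ F ∈ NN, F ∈ V ∧ ‖F‖ ≤ 1)
    (hnet : ∀ F ∈ V, ‖F‖ ≤ 1 → ∃ F' ∈ NN, ‖F - F'‖ ≤ ε)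
    (hs : ∀ F ∈ NN, ¬ IsUnit F → ∃ s : Finset sd.Ev, (∀ e ∈ s, ¬ IsUnit (F (sd.pts e))) ∧
      Module.finrank ℂ E ≤ s.card) :
    ∃ W : Set C(sd.X', sd.E' E →L[ℂ] sd.E' E), W.Finite ∧
      ∀ F ∈ V, ‖F‖ ≤ 1 → ∀ b, ∀ η : ℝ, 0 < η → ∃ g ∈ Vn sd V W,
        ∃ h : C(sd.X', sd.E' E →L[ℂ] sd.E' E), g * h = 1 ∧ h * g = 1 ∧ ‖h‖ ≤ 1 / η ∧
          ‖io E sd b F - g‖ ≤ 2 * ε + η := by
  classical
  -- the corrections
  have hT : ∀ (F : NN) (b : Fin 3), ∃ T : sd.E' E →L[ℂ] sd.E' E,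
      IsUnit (io E sd b F.1 + th E sd T) ∧ ‖th E sd T‖ ≤ ε :=
    fun F b => near_inv sd b F.1 ε hε (hs F.1 F.2)
  choose T hTu hTn using hT
  have hW : ∀ (F : NN) (b : Fin 3), ∃ W : C(sd.X', sd.E' E →L[ℂ] sd.E' E), star W * W = 1 ∧
      ∀ η : ℝ, 0 < η → ∃ h : C(sd.X', sd.E' E →L[ℂ] sd.E' E),
        ((io E sd b F.1 + th E sd (T F b)) + (η : ℂ) • W) * h = 1 ∧
        h * ((io E sd b F.1 + th E sd (T F b)) + (η : ℂ) • W) = 1 ∧ ‖h‖ ≤ 1 / η :=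
    fun F b => T2_polar (A := C(sd.X', sd.E' E →L[ℂ] sd.E' E)) _ (hTu F b)
  choose W hWu hWh using hW
  refine ⟨Set.range (fun q : NN × Fin 3 => W q.1 q.2), Set.finite_range _, ?_⟩
  intro F hF hF1 b η hη
  obtain ⟨F', hF', hd⟩ := hnet F hF hF1
  obtain ⟨h, h1, h2, h3⟩ := hWh ⟨F', hF'⟩ b η hη
  refine ⟨(io E sd b F' + th E sd (T ⟨F', hF'⟩ b)) + (η : ℂ) • W ⟨F', hF'⟩ b, ?_, h, h1, h2, h3, ?_⟩
  · refine Submodule.add_mem _ (Submodule.add_mem _ ?_ ?_) (Submodule.smul_mem _ _ ?_)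
    · exact Vn_io sd V _ b F' (hN F' hF').1
    · exact Vn_th sd V _ _
    · exact Vn_W sd V _ _ ⟨(⟨F', hF'⟩, b), rfl⟩
  · have n1 : ‖io E sd b (F - F')‖ ≤ ε :=
      le_trans (NonUnitalStarAlgHom.norm_apply_le (io E sd b) (F - F')) hd
    exact T2_norm (A := C(sd.X', sd.E' E →L[ℂ] sd.E' E)) (io E sd b F) (io E sd b F')
      (io E sd b (F - F')) _ _ ε η hη (map_sub (io E sd b) F F') n1 (hTn ⟨F', hF'⟩ b)
      (hWu ⟨F', hF'⟩ b)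

end Pool.Agent.B9x.E
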