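import Pool.Agent.Lib.MP_b9c6dd_an.X.E.Stage

/-!
# The tower
-/

set_option autoImplicit false

open scoped InnerProductSpace

namespace Pool.Agent.B9x.E

open Pool.Agent.B9x.A

theorem card_Tl (i : ℕ) : Fintype.card (Tl i) = 3 ^ i := by
  induction i with
  | zero => rfl
  | succ i ih =>
    have h : Fintype.card (Tl (i + 1)) = Fintype.card (Fin 3 × Tl i) := rfl
    rw [h, Fintype.card_prod, ih, Fintype.card_fin, pow_succ, mul_comm]

/-- The projection at the bottom of the tower. -/
noncomputable def y0 : stage0.D :=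
  (⟨fun x => if x = true then (1 : ℂ →L[ℂ] ℂ) else 0, continuous_of_discreteTopology⟩ :
    C(Bool, ℂ →L[ℂ] ℂ))

theorem y0_sa : star y0 = y0 := by
  apply ContinuousMap.ext
  intro (x : Bool)
  change star (if x = true then (1 : ℂ →L[ℂ] ℂ) else 0) = if x = true then (1 : ℂ →L[ℂ] ℂ) else 0
  cases x
  · exact star_zero (R := ℂ →L[ℂ] ℂ)
  · exact star_one (R := ℂ →L[ℂ] ℂ)

theorem y0_idem : y0 * y0 = y0 := by
  apply ContinuousMap.ext
  intro (x : Bool)
  change (if x = true then (1 : ℂ →L[ℂ] ℂ) else 0) * (if x = true then (1 : ℂ →L[ℂ] ℂ) else 0) =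
    if x = true then (1 : ℂ →L[ℂ] ℂ) else 0
  cases x
  · simp
  · simp

theorem y0_ne : y0 ≠ 0 := by
  intro h
  have h1 : (if true = true then (1 : ℂ →L[ℂ] ℂ) else 0) = 0 := congrArg (fun f : C(Bool, ℂ →L[ℂ] ℂ) => f true) h
  simp at h1

theorem yyf_idem (i : ℕ) (τ : Tl i) :
    yyf (D := fun i => (stage i).D) ioS y0 i τ * yyf (D := fun i => (stage i).D) ioS y0 i τ =
      yyf (D := fun i => (stage i).D) ioS y0 i τ := by
  induction i with
  | zero => exact y0_idem
  | succ i ih =>
    change ioS i τ.1 _ * ioS i τ.1 _ = ioS i τ.1 _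
    rw [← map_mul, ih]

theorem obstr_stage (i : ℕ) : Obstr (stage i).X (stage i).E (Tl i)
    fun τ x => (yyf (D := fun i => (stage i).D) ioS y0 i τ : (stage i).D) x := by
  induction i with
  | zero => exact obstr_base
  | succ i ih =>
    have h := obstr_step (theStep (stage i) i).sd
      (fun τ : Tl i => yyf (D := fun i => (stage i).D) ioS y0 i τ) (by
        rw [card_Tl]
        have h1 := (theStep (stage i) i).dim
        have h2 : 3 ^ (i + 1) = 3 * 3 ^ i := by rw [pow_succ, mul_comm]
        rw [h2] at h1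
        exact h1) ih
    exact h

theorem nontrivial_stage (i : ℕ) : Nontrivial (stage i).D := by
  obtain ⟨x⟩ : Nonempty (stage i).X := inferInstance
  refine ⟨⟨1, 0, fun h => ?_⟩⟩
  have h1 : (1 : (stage i).E →L[ℂ] (stage i).E) = 0 :=
    congrArg (fun f : C((stage i).X, (stage i).E →L[ℂ] (stage i).E) => f x) h
  exact one_ne_zero h1

/-- The tower. -/
noncomputable def theTower : Tower where
  D i := (stage i).D
  nt := nontrivial_stage
  io := ioS
  io_inj i b := io_inj (stage i).E (theStep (stage i) i).sd b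
  V i := (stage i).V
  one_mem i := (stage i).one_mem
  star_mem i := (stage i).star_mem
  io_mem i b := Vn_io (theStep (stage i) i).sd (stage i).V (theStep (stage i) i).W b
  mul_mem i b := Vn_mul (theStep (stage i) i).sd (stage i).V (theStep (stage i) i).W b
  T2 i := (theStep (stage i) i).T2
  T3 i := (theStep (stage i) i).T3
  y := y0
  y_mem := trivial
  y_sa := y0_sa
  y_idem := y0_idem
  y_ne := y0_ne
  T4 m A B := T4_of_obstr _ (yyf_idem m) (obstr_stage m) A B
  H i := lp (fun _ : (stage i).X => (stage i).E) 2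
  rep i := (exists_repC (stage i).X (stage i).E).choose
  rep_inj i := (exists_repC (stage i).X (stage i).E).choose_spec

end Pool.Agent.B9x.E
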