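import Pool.Agent.Lib.MP_b9c6dd_an.X.E.Io

/-!
# Job E6 (VnProps): properties of the new subspace

Finite dimension: `Vn` is contained in the supremum of finitely many finite dimensional subspaces: `V.map (io b)`, `(V * V).map (io b)` (`Submodule.FG.mul`), `range (th)`,
`span W`, `span (star W)` (`{g | star g ∈ W}` is the image of `W` under `star`, finite).
Star: the generators are mapped to generators (`star (io (F * G)) = io (star G * star F)`), and `star` is additive, conjugate linear: `Submodule.span_induction`.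
-/

set_option autoImplicit false

open scoped InnerProductSpace

namespace Pool.Agent.B9x.E

section generic

variable {A B : Type}

theorem VnProps_finite [AddCommMonoid B] [Module ℂ B] (gs S : Set B) (hS : S.Finite)
    (h : ∀ g ∈ gs, g ∈ Submodule.span ℂ S) : (Submodule.span ℂ S).FG ∧
      Submodule.span ℂ gs ≤ Submodule.span ℂ S :=
  ⟨Submodule.fg_span hS, Submodule.span_le.2 h⟩

theorem VnProps_map [AddCommMonoid A] [Module ℂ A] [AddCommMonoid B] [Module ℂ B] (f : A → B)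
    (h0 : f 0 = 0) (h1 : ∀ F G, f (F + G) = f F + f G) (h2 : ∀ (c : ℂ) F, f (c • F) = c • f F)
    (N : Submodule ℂ B) (S : Set A) (hS : ∀ x ∈ S, f x ∈ N) : ∀ x ∈ Submodule.span ℂ S, f x ∈ N := by
  intro x hx
  refine Submodule.span_induction (p := fun x _ => f x ∈ N) hS ?_ ?_ ?_ hx
  · rw [h0]
    exact N.zero_mem
  · intro x y _ _ hx hy
    rw [h1]
    exact N.add_mem hx hy
  · intro c x _ hx
    rw [h2]
    exact N.smul_mem c hx

theorem VnProps_star [AddCommMonoid B] [Module ℂ B] (s : B → B) (s0 : s 0 = 0)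
    (s1 : ∀ x y, s (x + y) = s x + s y) (s2 : ∀ (c : ℂ) x, s (c • x) = star c • s x)
    (gs : Set B) (hgs : ∀ g ∈ gs, s g ∈ gs) :
    ∀ g ∈ Submodule.span ℂ gs, s g ∈ Submodule.span ℂ gs := by
  intro g hg
  refine Submodule.span_induction (p := fun x _ => s x ∈ Submodule.span ℂ gs) ?_ ?_ ?_ ?_ hg
  · intro x hx
    exact Submodule.subset_span (hgs x hx)
  · rw [s0]
    exact Submodule.zero_mem _
  · intro x y _ _ hx hy
    rw [s1]
    exact Submodule.add_mem _ hx hy
  · intro c x _ hx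
    rw [s2]
    exact Submodule.smul_mem _ _ hx

/-- membership in a preimage, kept opaque to avoid expensive comparisons -/
theorem VnProps_mem (s : B → B) (W : Set B) (x y : B) (h : s x = y) (hy : y ∈ W) :
    x ∈ {g | s g ∈ W} := by
  rw [← h] at hy
  exact hy

end generic

variable {X : Type} [TopologicalSpace X] {E : Type} [NormedAddCommGroup E]
  [InnerProductSpace ℂ E] [FiniteDimensional ℂ E] [CompleteSpace E] (sd : SD X)
  (V : Submodule ℂ C(X, E →L[ℂ] E)) (W : Set C(sd.X', sd.E' E →L[ℂ] sd.E' E))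

theorem VnProps_io_add (b : Fin 3) (F G : C(X, E →L[ℂ] E)) :
    io E sd b (F + G) = io E sd b F + io E sd b G := (io E sd b).map_add' F G

theorem VnProps_io_zero (b : Fin 3) : io E sd b 0 = 0 := (io E sd b).map_zero'

theorem VnProps_io_smul (b : Fin 3) (c : ℂ) (F : C(X, E →L[ℂ] E)) :
    io E sd b (c • F) = c • io E sd b F := ((io E sd b).toAlgHom.toLinearMap).map_smul' c F

theorem VnProps_th_add (S T : sd.E' E →L[ℂ] sd.E' E) :
    th E sd (S + T) = th E sd S + th E sd T := (th E sd).map_add' S T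

theorem VnProps_th_zero : th E sd 0 = 0 := (th E sd).map_zero'

theorem VnProps_th_smul (c : ℂ) (T : sd.E' E →L[ℂ] sd.E' E) :
    th E sd (c • T) = c • th E sd T := ((th E sd).toAlgHom.toLinearMap).map_smul' c T

theorem VnProps_io_span (b : Fin 3) (N : Submodule ℂ C(sd.X', sd.E' E →L[ℂ] sd.E' E))
    (S : Set C(X, E →L[ℂ] E)) (hS : ∀ x ∈ S, io E sd b x ∈ N) :
    ∀ x ∈ Submodule.span ℂ S, io E sd b x ∈ N :=
  VnProps_map (fun F => io E sd b F) (VnProps_io_zero sd b) (VnProps_io_add sd b)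
    (VnProps_io_smul sd b) N S hS

theorem VnProps_th_span (N : Submodule ℂ C(sd.X', sd.E' E →L[ℂ] sd.E' E))
    (S : Set (sd.E' E →L[ℂ] sd.E' E)) (hS : ∀ x ∈ S, th E sd x ∈ N) :
    ∀ x ∈ Submodule.span ℂ S, th E sd x ∈ N :=
  VnProps_map (fun F => th E sd F) (VnProps_th_zero sd) (VnProps_th_add sd)
    (VnProps_th_smul sd) N S hS

theorem VnProps_mul_span (b : Fin 3) (N : Submodule ℂ C(sd.X', sd.E' E →L[ℂ] sd.E' E))
    (S : Set C(X, E →L[ℂ] E)) (hS : ∀ x ∈ S, ∀ y ∈ S, io E sd b (x * y) ∈ N) :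
    ∀ x ∈ Submodule.span ℂ S, ∀ y ∈ Submodule.span ℂ S, io E sd b (x * y) ∈ N := by
  have h1 : ∀ x ∈ S, ∀ y ∈ Submodule.span ℂ S, io E sd b (x * y) ∈ N := by
    intro x hx
    refine VnProps_map (fun F => io E sd b (x * F)) ?_ ?_ ?_ N S (hS x hx)
    · exact (congrArg (io E sd b) (mul_zero x)).trans (VnProps_io_zero sd b)
    · intro F G
      exact (congrArg (io E sd b) (mul_add x F G)).trans (VnProps_io_add sd b _ _)
    · intro c F
      exact (congrArg (io E sd b) (mul_smul_comm c x F)).trans (VnProps_io_smul sd b _ _)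
  intro x hx y hy
  revert x
  refine VnProps_map (fun F => io E sd b (F * y)) ?_ ?_ ?_ N S (fun x hx => h1 x hx y hy)
  · exact (congrArg (io E sd b) (zero_mul y)).trans (VnProps_io_zero sd b)
  · intro F G
    exact (congrArg (io E sd b) (add_mul F G y)).trans (VnProps_io_add sd b _ _)
  · intro c F
    exact (congrArg (io E sd b) (smul_mul_assoc c F y)).trans (VnProps_io_smul sd b _ _)

theorem VnProps_star_zero : star (0 : C(sd.X', sd.E' E →L[ℂ] sd.E' E)) = 0 := star_zero _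

theorem VnProps_star_add (x y : C(sd.X', sd.E' E →L[ℂ] sd.E' E)) :
    star (x + y) = star x + star y := star_add x y

theorem VnProps_star_smul (c : ℂ) (x : C(sd.X', sd.E' E →L[ℂ] sd.E' E)) :
    star (c • x) = star c • star x := star_smul c x

theorem VnProps_star_star (x : C(sd.X', sd.E' E →L[ℂ] sd.E' E)) : star (star x) = x :=
  star_star x

omit [FiniteDimensional ℂ E] in
theorem VnProps_star_mul (F G : C(X, E →L[ℂ] E)) : star (F * G) = star G * star F :=
  star_mul F G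

theorem VnProps_star_io (b : Fin 3) (F : C(X, E →L[ℂ] E)) :
    star (io E sd b F) = io E sd b (star F) := ((io E sd b).map_star' F).symm

theorem VnProps_star_io2 (b : Fin 3) (F G : C(X, E →L[ℂ] E)) :
    star (io E sd b (F * G)) = io E sd b (star G * star F) :=
  (VnProps_star_io sd b (F * G)).trans (congrArg (io E sd b) (VnProps_star_mul F G))

theorem VnProps_star_th (T : sd.E' E →L[ℂ] sd.E' E) : star (th E sd T) = th E sd (star T) :=
  ((th E sd).map_star' T).symm

theorem VnProps_g1 (b : Fin 3) (F : C(X, E →L[ℂ] E)) (hF : F ∈ V) (hV : ∀ F ∈ V, star F ∈ V) :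
    star (io E sd b F) ∈ gens sd V W :=
  Or.inl (Or.inl (Or.inl (Or.inl ⟨b, star F, hV F hF, VnProps_star_io sd b F⟩)))

theorem VnProps_g2 (b : Fin 3) (F G : C(X, E →L[ℂ] E)) (hF : F ∈ V) (hG : G ∈ V)
    (hV : ∀ F ∈ V, star F ∈ V) : star (io E sd b (F * G)) ∈ gens sd V W :=
  Or.inl (Or.inl (Or.inl (Or.inr ⟨b, star G, hV G hG, star F, hV F hF,
    VnProps_star_io2 sd b F G⟩)))

theorem VnProps_g3 (T : sd.E' E →L[ℂ] sd.E' E) : star (th E sd T) ∈ gens sd V W :=
  Or.inl (Or.inl (Or.inr ⟨star T, (VnProps_star_th sd T).symm⟩))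

theorem VnProps_g4 (x : C(sd.X', sd.E' E →L[ℂ] sd.E' E)) (hx : x ∈ W) :
    star x ∈ gens sd V W :=
  Or.inr (VnProps_mem star W (star x) x (VnProps_star_star sd x) hx)

theorem VnProps_g5 (x : C(sd.X', sd.E' E →L[ℂ] sd.E' E)) (hx : star x ∈ W) :
    star x ∈ gens sd V W := Or.inl (Or.inr hx)

theorem VnProps_gstar (hV : ∀ F ∈ V, star F ∈ V) :
    ∀ g ∈ gens sd V W, star g ∈ gens sd V W := by
  rintro x ((((hx | hx) | hx) | hx) | hx)
  · obtain ⟨b, F, hF, rfl⟩ := hx
    exact VnProps_g1 sd V W b F hF hV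
  · obtain ⟨b, F, hF, G, hG, rfl⟩ := hx
    exact VnProps_g2 sd V W b F G hF hG hV
  · obtain ⟨T, rfl⟩ := hx
    exact VnProps_g3 sd V W T
  · exact VnProps_g4 sd V W x hx
  · exact VnProps_g5 sd V W x hx

theorem VnProps_Wstar (hW : W.Finite) :
    {g : C(sd.X', sd.E' E →L[ℂ] sd.E' E) | star g ∈ W}.Finite := by
  refine (hW.image star).subset ?_
  intro g hg
  exact ⟨star g, hg, star_star g⟩

theorem VnProps_gens (hV : FiniteDimensional ℂ V) (hW : W.Finite) :
    ∃ S : Set C(sd.X', sd.E' E →L[ℂ] sd.E' E), S.Finite ∧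
      ∀ g ∈ gens sd V W, g ∈ Submodule.span ℂ S := by
  obtain ⟨SV, hSV⟩ := (Submodule.fg_iff_finiteDimensional V).2 hV
  have hT : FiniteDimensional ℂ (sd.E' E →L[ℂ] sd.E' E) := inferInstance
  obtain ⟨ST, hST⟩ := hT.fg_top
  let S1 : Set C(sd.X', sd.E' E →L[ℂ] sd.E' E) :=
    Set.range fun q : Fin 3 × SV => io E sd q.1 q.2.1
  let S2 : Set C(sd.X', sd.E' E →L[ℂ] sd.E' E) :=
    Set.range fun q : Fin 3 × SV × SV => io E sd q.1 (q.2.1.1 * q.2.2.1)
  let S3 : Set C(sd.X', sd.E' E →L[ℂ] sd.E' E) := Set.range fun q : ST => th E sd q.1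
  let S4 : Set C(sd.X', sd.E' E →L[ℂ] sd.E' E) := {g | star g ∈ W}
  refine ⟨S1 ∪ S2 ∪ S3 ∪ W ∪ S4, ?_, ?_⟩
  · exact ((((Set.finite_range _).union (Set.finite_range _)).union (Set.finite_range _)).union
      hW).union (VnProps_Wstar sd W hW)
  rintro x ((((hx | hx) | hx) | hx) | hx)
  · obtain ⟨b, F, hF, rfl⟩ := hx
    rw [← hSV] at hF
    refine VnProps_io_span sd b _ _ ?_ F hF
    intro y hy
    exact Submodule.subset_span (Or.inl (Or.inl (Or.inl (Or.inl ⟨(b, ⟨y, hy⟩), rfl⟩))))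
  · obtain ⟨b, F, hF, G, hG, rfl⟩ := hx
    rw [← hSV] at hF hG
    refine VnProps_mul_span sd b _ _ ?_ F hF G hG
    intro y hy z hz
    exact Submodule.subset_span
      (Or.inl (Or.inl (Or.inl (Or.inr ⟨(b, ⟨y, hy⟩, ⟨z, hz⟩), rfl⟩))))
  · obtain ⟨T, rfl⟩ := hx
    have hT' : T ∈ Submodule.span ℂ (ST : Set (sd.E' E →L[ℂ] sd.E' E)) := by
      rw [hST]
      exact Submodule.mem_top
    refine VnProps_th_span sd _ _ ?_ T hT'
    intro y hy
    exact Submodule.subset_span (Or.inl (Or.inl (Or.inr ⟨⟨y, hy⟩, rfl⟩)))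
  · exact Submodule.subset_span (Or.inl (Or.inr hx))
  · exact Submodule.subset_span (Or.inr hx)

theorem Vn_fd (hV : FiniteDimensional ℂ V) (hW : W.Finite) : FiniteDimensional ℂ (Vn sd V W) := by
  obtain ⟨S, hS, h⟩ := VnProps_gens sd V W hV hW
  have hfd : FiniteDimensional ℂ (Submodule.span ℂ S) := FiniteDimensional.span_of_finite ℂ hS
  exact Submodule.finiteDimensional_of_le (S₂ := Submodule.span ℂ S) (Submodule.span_le.2 h)

theorem Vn_one : 1 ∈ Vn sd V W := by
  have h : th E sd 1 ∈ Vn sd V W :=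
    Submodule.subset_span (Or.inl (Or.inl (Or.inr ⟨1, rfl⟩)))
  have h1 : th E sd 1 = 1 := (th E sd).map_one'
  exact h1 ▸ h

theorem Vn_star (hV : ∀ F ∈ V, star F ∈ V) : ∀ g ∈ Vn sd V W, star g ∈ Vn sd V W := by
  exact VnProps_star star (VnProps_star_zero sd) (VnProps_star_add sd) (VnProps_star_smul sd)
    (gens sd V W) (VnProps_gstar sd V W hV)

theorem Vn_io (b : Fin 3) : ∀ F ∈ V, io E sd b F ∈ Vn sd V W := by
  intro F hF
  exact Submodule.subset_span (Or.inl (Or.inl (Or.inl (Or.inl ⟨b, F, hF, rfl⟩))))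

theorem Vn_mul (b : Fin 3) : ∀ F ∈ V, ∀ G ∈ V, io E sd b (F * G) ∈ Vn sd V W := by
  intro F hF G hG
  exact Submodule.subset_span (Or.inl (Or.inl (Or.inl (Or.inr ⟨b, F, hF, G, hG, rfl⟩))))

theorem Vn_th (T : sd.E' E →L[ℂ] sd.E' E) : th E sd T ∈ Vn sd V W := by
  exact Submodule.subset_span (Or.inl (Or.inl (Or.inr ⟨T, rfl⟩)))

theorem Vn_W (g : C(sd.X', sd.E' E →L[ℂ] sd.E' E)) (hg : g ∈ W) : g ∈ Vn sd V W := by
  exact Submodule.subset_span (Or.inl (Or.inr hg))

end Pool.Agent.B9x.E
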